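import Pool.Agent.Y797.FP.Final
set_option autoImplicit false

/-!
The independence of the regulators.
-/

namespace Pool.Agent.Y797.FP

open Metric

open Pool.Agent.TH826.MK (KQ symb Torus pairing circ norm_circ contDiff_circ circ_add_one zeta
  zeta_eq contDiffAt_zeta)

open Pool.Agent.TH826.UH (pr NZ nz_circ pr_prod pr_circ pr_lt_of_disc exists_radius pr_mul pr_one)

theorem pr_inv {G H : ℝ → ℂ} (hG : NZ G) (hH : NZ H) : pr G (fun t => (H t)⁻¹) = -pr G H := by
  have h1 : NZ fun t => (H t)⁻¹ :=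
    ⟨hH.smooth.inv hH.ne_zero, fun t => inv_ne_zero (hH.ne_zero t)⟩
  have h2 := pr_mul hG hH h1
  have h3 : (fun t => H t * (H t)⁻¹) = fun _ => 1 := by
    funext t
    exact mul_inv_cancel₀ (hH.ne_zero t)
  rw [h3, pr_one] at h2
  linarith

variable {K : Type*} [Field K] {m : ℕ} {D : Dat K m} {σ : K →+* ℂ}

section reg

variable {e : Fin m} {η : ℝ} {y : ℂ → ℂ} {c : ℂ} {R : ℝ}

theorem LD.nz_X (H : LD D σ e η y c) (hR : 0 < R) (hη : R + R⁻¹ < 2 + η) :
    ContDiff ℝ 2 fun t => y (gam R t) := by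
  rw [contDiff_iff_contDiffAt]
  intro t
  have h1 : AnalyticAt ℂ y (gam R t) := H.an.analyticAt (isOpen_ball.mem_nhds (gam_mem hR hη t))
  exact (h1.contDiffAt.restrict_scalars ℝ).comp t (contDiff_gam hR).contDiffAt

theorem LD.Z_cd (H : LD D σ e η y c) (hR : 0 < R) (hη : R + R⁻¹ < 2 + η) (s : Fin m → Bool)
    (f : Fin m) : ContDiff ℝ 2 fun t => Zf D σ e y s R t f := by
  by_cases hf : e = f
  · subst hf
    simp only [Zf_self]
    exact contDiff_circ R
  · simp only [Zf_ne s _ hf]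
    exact (nz_comp (H.G_diff s hf) (H.G_ne s hf) (contDiff_gam hR) (gam_mem hR hη)).smooth

theorem Zf_per (s : Fin m → Bool) (t : ℝ) : Zf D σ e y s R (t + 1) = Zf D σ e y s R t := by
  funext f
  by_cases hf : e = f
  · subst hf
    rw [Zf_self, Zf_self, circ_add_one]
  · rw [Zf_ne s _ hf, Zf_ne s _ hf, gam_per]

/-- the loop -/
noncomputable def LD.loop (H : LD D σ e η y c) (hC : D.Cyclotomic σ) (hR : 1 < R)
    (hη : R + R⁻¹ < 2 + η) (s : Fin m → Bool) : Torus D.Open 1 :=
  mkL (H.nz_X (one_pos.trans hR) hη) (H.Z_cd (one_pos.trans hR) hη s)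
    (fun t => by rw [gam_per]) (Zf_per s) (H.isPt hC hR hη s)

theorem LD.loop_cst (H : LD D σ e η y c) (hC : D.Cyclotomic σ) (hR : 1 < R)
    (hη : R + R⁻¹ < 2 + η) (s : Fin m → Bool) (θ : Fin 1 → ℝ) (a : K) :
    (H.loop hC hR hη s).e θ (D.cst a) = σ a := mkL_cst _ _ _ _ _ _ _

theorem LD.loop_zz (H : LD D σ e η y c) (hC : D.Cyclotomic σ) (hR : 1 < R)
    (hη : R + R⁻¹ < 2 + η) (s : Fin m → Bool) (f g : Fin m) :
    (H.loop hC hR hη s).reg (D.zz f g) =
      pr (fun t => Zf D σ e y s R t f) fun t => Zf D σ e y s R t g := mkL_zz _ _ _ _ _ _ _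

theorem LD.loop_zp (H : LD D σ e η y c) (hC : D.Cyclotomic σ) (hR : 1 < R)
    (hη : R + R⁻¹ < 2 + η) (s : Fin m → Bool) (f : Fin m) (k : Fin (D.r f)) :
    (H.loop hC hR hη s).reg (D.zp f k) =
      pr (fun t => Zf D σ e y s R t f) (fun t => (D.P f k.succ).eval₂ σ (y (gam R t))) -
      pr (fun t => Zf D σ e y s R t f) fun t => (D.P f 0).eval₂ σ (y (gam R t)) :=
  mkL_zp _ _ _ _ _ _ _

theorem LD.zz_other (H : LD D σ e η y c) (hC : D.Cyclotomic σ) (hR : 1 < R)
    (hη : R + R⁻¹ < 2 + η) (s : Fin m → Bool) {f g : Fin m} (hf : e ≠ f) (hg : e ≠ g) :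
    (H.loop hC hR hη s).reg (D.zz f g) = 0 := by
  rw [H.loop_zz]
  simp only [Zf_ne s _ hf, Zf_ne s _ hg]
  exact pr_comp (H.G_diff s hf) (H.G_ne s hf) (H.G_diff s hg) (H.G_ne s hg)
    (contDiff_gam (one_pos.trans hR)) (gam_mem (one_pos.trans hR) hη)
    (by rw [← gam_per 0, zero_add])

theorem LD.zz_left (H : LD D σ e η y c) (hC : D.Cyclotomic σ) (hR : 1 < R)
    (hη : R + R⁻¹ < 2 + η) (s : Fin m → Bool) {g : Fin m} (hg : e ≠ g) :
    (H.loop hC hR hη s).reg (D.zz e g) = (if s g = true then -1 else 1) *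
      pr (circ R) (fun t => zeta ((D.F g).eval₂ σ (y (gam R t)))) := by
  have hR0 := one_pos.trans hR
  rw [H.loop_zz]
  simp only [Zf_self, Zf_ne s _ hg]
  unfold Gf
  by_cases h : s g = true
  · simp only [h, if_true]
    rw [pr_inv (nz_circ hR0) (nz_comp (H.zeta_diff hg) (fun u hu => H.zeta_ne hg hu)
      (contDiff_gam hR0) (gam_mem hR0 hη))]
    ring
  · simp only [h]
    simp

theorem LD.zz_right (H : LD D σ e η y c) (hC : D.Cyclotomic σ) (hR : 1 < R)
    (hη : R + R⁻¹ < 2 + η) (s s' : Fin m → Bool) {f : Fin m} (hf : e ≠ f) (hs : s f = s' f) :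
    (H.loop hC hR hη s).reg (D.zz f e) = (H.loop hC hR hη s').reg (D.zz f e) := by
  rw [H.loop_zz, H.loop_zz]
  simp only [Zf_self, Zf_ne s _ hf, Zf_ne s' _ hf]
  unfold Gf
  rw [hs]

theorem LD.zeta_neg (H : LD D σ e η y c) (hR : 1 < R)
    (hη : R + R⁻¹ < 2 + η) {g : Fin m} (hg : e ≠ g) :
    pr (circ R) (fun t => zeta ((D.F g).eval₂ σ (y (gam R t)))) < 0 :=
  pr_circ_comp (one_pos.trans hR) (H.zeta_diff hg) (fun u hu => H.zeta_gt hg hu)
    (contDiff_gam (one_pos.trans hR)) (gam_mem (one_pos.trans hR) hη)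
    (by rw [← gam_per 0, zero_add])

theorem LD.P_ne (H : LD D σ e η y c) (hC : D.Cyclotomic σ) {f : Fin m} (hf : e ≠ f)
    (k : Fin (D.r f + 1)) (u : ℂ) (hu : u ∈ ball (0 : ℂ) (2 + η)) :
    (D.P f k).eval₂ σ (y u) ≠ 0 := fun h => H.Q_ne hC hf hu (root_Q h)

theorem LD.zp_other (H : LD D σ e η y c) (hC : D.Cyclotomic σ) (hR : 1 < R)
    (hη : R + R⁻¹ < 2 + η) (s : Fin m → Bool) {f : Fin m} (hf : e ≠ f) (k : Fin (D.r f)) :
    (H.loop hC hR hη s).reg (D.zp f k) = 0 := by
  have h01 : gam R 1 = gam R 0 := by rw [← gam_per 0, zero_add]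
  have hc := contDiff_gam (one_pos.trans hR)
  have hb := gam_mem (one_pos.trans hR) hη
  rw [H.loop_zp]
  simp only [Zf_ne s _ hf]
  rw [pr_comp (H.G_diff s hf) (H.G_ne s hf) (H.F_diff (D.P f k.succ)) (H.P_ne hC hf k.succ)
    hc hb h01, pr_comp (H.G_diff s hf) (H.G_ne s hf) (H.F_diff (D.P f 0)) (H.P_ne hC hf 0)
    hc hb h01, sub_zero]

theorem LD.zp_self (H : LD D σ e η y c) (hC : D.Cyclotomic σ) (hR : 1 < R)
    (hη : R + R⁻¹ < 2 + η) (s : Fin m → Bool) (k : Fin (D.r e)) :
    (H.loop hC hR hη s).reg (D.zp e k) =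
      pr (circ R) (fun t => (D.P e k.succ).eval₂ σ (y (gam R t))) -
      pr (circ R) fun t => (D.P e 0).eval₂ σ (y (gam R t)) := by
  rw [H.loop_zp]
  simp only [Zf_self]

theorem LD.nz_P (H : LD D σ e η y c) (hC : D.Cyclotomic σ) (hR : 1 < R)
    (hη : R + R⁻¹ < 2 + η) (k : Fin (D.r e + 1)) :
    NZ fun t => (D.P e k).eval₂ σ (y (gam R t)) :=
  FP.nz_P (Z := Zf D σ e y (fun _ => false) R) (H.nz_X (one_pos.trans hR) hη)
    (H.isPt hC hR hη (fun _ => false)) e k

/-- the sum over the factors -/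
theorem LD.row (H : LD D σ e η y c) (hC : D.Cyclotomic σ) (hR : 1 < R)
    (hη : R + R⁻¹ < 2 + η) :
    ∑ k, pr (circ R) (fun t => (D.P e k).eval₂ σ (y (gam R t))) = 0 := by
  obtain ⟨ζ, N, hN, hζ, ht⟩ := hC e
  have hn1 : ‖ζ‖ = 1 := by
    have h3 := congrArg norm hζ
    rw [norm_pow, norm_one] at h3
    exact (pow_eq_one_iff_of_nonneg (norm_nonneg _) hN).1 h3
  rw [← pr_prod Finset.univ (nz_circ (one_pos.trans hR)) fun k => H.nz_P hC hR hη k,
    ← pr_circ hR hn1]
  congr 1
  funext t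
  have h1 := H.val _ (gam_mem (one_pos.trans hR) hη t)
  rw [F_eq, ht] at h1
  unfold Dat.Q at h1
  rw [Polynomial.eval₂_finsetProd] at h1
  have h4 : gam R t = circ R t + (circ R t)⁻¹ := rfl
  rw [← h4]
  linear_combination h1

/-- the off-diagonal entries -/
theorem LD.offdiag (H : LD D σ e η y c) (hI : D.Integral) (hC : D.Cyclotomic σ)
    (hS : D.Separated σ) (hR : 1 < R) (hη : R + R⁻¹ < 2 + η) {l k : Fin (D.r e + 1)} (hlk : l ≠ k)
    (hc : (D.P e l).eval₂ σ c = 0) :
    pr (circ R) (fun t => (D.P e k).eval₂ σ (y (gam R t))) < 0 := by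
  classical
  have hR0 := one_pos.trans hR
  set P : Polynomial ℂ := (D.P e k).map σ with hP
  have hPm : P.Monic := (hI e k).1.map σ
  have hPs : P.Separable := (sep_P hS e k).map
  have hPe := eq_prod_roots hPm hPs
  set T := P.roots.toFinset with hT
  have hX := H.nz_X hR0 hη
  have hne : ∀ a ∈ T, (D.P e k).eval₂ σ a = 0 := by
    intro a ha
    rw [hT, Multiset.mem_toFinset] at ha
    have h1 := Polynomial.isRoot_of_mem_roots ha
    rw [Polynomial.IsRoot.def, hP, Polynomial.eval_map] at h1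
    exact h1
  have hfun : (fun t => (D.P e k).eval₂ σ (y (gam R t))) =
      fun t => ∏ a : T, (y (gam R t) - a) := by
    funext t
    rw [← Polynomial.eval_map, ← hP]
    conv_lhs => rw [hPe]
    rw [Polynomial.eval_prod, ← Finset.prod_coe_sort]
    simp only [Polynomial.eval_sub, Polynomial.eval_X, Polynomial.eval_C]
  have hnz : ∀ a : T, NZ fun t => y (gam R t) - a := by
    intro a
    refine ⟨hX.sub contDiff_const, fun t h => ?_⟩
    have h1 := (H.isPt hC hR hη (fun _ => false) t).ne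
    rw [sub_eq_zero.1 h] at h1
    exact h1 (root_all (root_Q (hne a a.2)))
  have hTne : (Finset.univ : Finset T).Nonempty := by
    have h1 : P.natDegree = T.card := by
      conv_lhs => rw [hPe]
      rw [Polynomial.natDegree_prod_of_monic _ _ fun a _ => Polynomial.monic_X_sub_C a]
      simp
    have h2 : 0 < T.card := by
      rw [← h1, hP, Polynomial.natDegree_map]
      exact (hI e k).2.1
    obtain ⟨a, ha⟩ := Finset.card_pos.1 h2
    exact ⟨⟨a, ha⟩, Finset.mem_univ _⟩
  rw [hfun, pr_prod Finset.univ (nz_circ hR0) hnz]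
  refine Finset.sum_neg (fun a _ => ?_) hTne
  have hac : c ≠ a := by
    intro h
    have h1 := hne a a.2
    rw [← h] at h1
    exact ne_of_coprime (cop_P hS e hlk) hc h1
  have h9 := hS.2 _ _ (root_all (root_Q hc)) (root_all (root_Q (hne a a.2))) hac
  have h10 := pr_lt_of_disc hR hX (fun t => by rw [gam_per]) (c := c) (c' := a) (ρ := 9 / 2)
    one_pos (fun t => H.disc _ (gam_mem hR0 hη t)) (by linarith)
  rwa [Real.log_one, mul_zero, neg_zero] at h10

end reg

/-- The regulators are independent. -/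
theorem independent (hI : D.Integral) (hC : D.Cyclotomic σ) (hS : D.Separated σ) :
    D.IndependentRegulators σ := by
  classical
  intro a b hab
  -- the coefficients of the symbols `{z_e, z_f}`
  have ha : ∀ e h, e < h → a e h = 0 := by
    intro e h heh
    obtain ⟨η, hη0, hη1⟩ := exists_LD hI hC hS e
    obtain ⟨R, hR, hRη⟩ := exists_radius hη0
    obtain ⟨g, b', η', hB⟩ := exists_br hI hC hS e
    obtain ⟨y, H⟩ := hη1 (b' 0) (root_of_prod hB.prod 0)
    set s0 : Fin m → Bool := fun _ => false with hs0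
    set s1 : Fin m → Bool := fun f => decide (f = h) with hs1
    have e0 := hab _ (H.loop_cst hC hR hRη s0)
    have e1 := hab _ (H.loop_cst hC hR hRη s1)
    have hne := heh.ne
    have hzp : ∀ f k, (H.loop hC hR hRη s0).reg (D.zp f k) =
        (H.loop hC hR hRη s1).reg (D.zp f k) := by
      intro f k
      by_cases hf : e = f
      · subst hf
        rw [H.zp_self, H.zp_self]
      · rw [H.zp_other hC hR hRη s0 hf, H.zp_other hC hR hRη s1 hf]
    have hzz : ∀ f g, f < g → ¬ (f = e ∧ g = h) → (H.loop hC hR hRη s0).reg (D.zz f g) =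
        (H.loop hC hR hRη s1).reg (D.zz f g) := by
      intro f g hfg hn
      by_cases hf : e = f
      · subst hf
        have hg : e ≠ g := hfg.ne
        have hgh : g ≠ h := fun h' => hn ⟨rfl, h'⟩
        rw [H.zz_left hC hR hRη s0 hg, H.zz_left hC hR hRη s1 hg]
        simp [hs0, hs1, hgh]
      · by_cases hg : e = g
        · subst hg
          refine H.zz_right hC hR hRη s0 s1 hf ?_
          have hfh : f ≠ h := (hfg.trans heh).ne
          simp [hs0, hs1, hfh]
        · rw [H.zz_other hC hR hRη s0 hf hg, H.zz_other hC hR hRη s1 hf hg]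
    have hd : ∑ f, ∑ g ∈ Finset.univ.filter (fun g => f < g),
        a f g * ((H.loop hC hR hRη s0).reg (D.zz f g) - (H.loop hC hR hRη s1).reg (D.zz f g)) =
        0 := by
      simp only [mul_sub, Finset.sum_sub_distrib]
      simp only [hzp] at e0
      linarith
    rw [Finset.sum_eq_single e, Finset.sum_eq_single h] at hd
    · rw [H.zz_left hC hR hRη s0 hne, H.zz_left hC hR hRη s1 hne] at hd
      have h1 := H.zeta_neg hR hRη hne
      simp only [hs0, hs1, decide_true, if_true, Bool.false_eq_true, if_false] at hd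
      set ρ := pr (circ R) (fun t => zeta ((D.F h).eval₂ σ (y (gam R t))))
      have h2 : a e h * (2 * ρ) = 0 := by linarith
      refine (mul_eq_zero.1 h2).resolve_right ?_
      have : 2 * ρ < 0 := by linarith
      exact this.ne
    · intro g hg hgh
      rw [hzz e g (Finset.mem_filter.1 hg).2 fun h' => hgh h'.2, sub_self, mul_zero]
    · intro h'
      exact absurd (Finset.mem_filter.2 ⟨Finset.mem_univ h, heh⟩) h'
    · intro f _ hf
      refine Finset.sum_eq_zero fun g hg => ?_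
      rw [hzz f g (Finset.mem_filter.1 hg).2 fun h' => hf h'.1, sub_self, mul_zero]
    · exact fun h' => absurd (Finset.mem_univ _) h'
  refine ⟨ha, fun e => ?_⟩
  have haz : ∀ T : Torus D.Open 1,
      ∑ e, ∑ f ∈ Finset.univ.filter (fun f => e < f), a e f * T.reg (D.zz e f) = 0 := by
    intro T
    refine Finset.sum_eq_zero fun f _ => Finset.sum_eq_zero fun g hg => ?_
    rw [ha f g (Finset.mem_filter.1 hg).2, zero_mul]
  obtain ⟨η, hη0, hη1⟩ := exists_LD hI hC hS e
  obtain ⟨R, hR, hRη⟩ := exists_radius hη0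
  have hroot : ∀ l : Fin (D.r e + 1), ∃ c : ℂ, (D.P e l).eval₂ σ c = 0 := by
    intro l
    have h1 : ((D.P e l).map σ).degree ≠ 0 := by
      rw [Polynomial.degree_eq_natDegree ((hI e l).1.map σ).ne_zero, Polynomial.natDegree_map]
      exact_mod_cast (hI e l).2.1.ne'
    obtain ⟨c, hc⟩ := IsAlgClosed.exists_root _ h1
    rw [Polynomial.IsRoot.def, Polynomial.eval_map] at hc
    exact ⟨c, hc⟩
  choose c hc using hroot
  have hLD : ∀ l, ∃ y, LD D σ e η y (c l) := fun l => hη1 _ (root_Q (hc l))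
  choose y H using hLD
  set I : Fin (D.r e + 1) → Fin (D.r e + 1) → ℝ := fun l k =>
    pr (circ R) (fun t => (D.P e k).eval₂ σ (y l (gam R t))) with hIdef
  have hb := vec_zero I (fun l => (H l).row hC hR hRη)
    (fun l k hlk => (H l).offdiag hI hC hS hR hRη hlk (hc l)) (b e) (fun l => by
      have h1 := hab _ ((H l).loop_cst hC hR hRη fun _ => false)
      rw [haz, zero_add, Finset.sum_eq_single e] at h1
      · rw [← h1]
        refine Finset.sum_congr rfl fun k _ => ?_
        rw [(H l).zp_self]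
      · intro f _ hf
        refine Finset.sum_eq_zero fun k _ => ?_
        rw [(H l).zp_other hC hR hRη _ (Ne.symm hf), mul_zero]
      · exact fun h' => absurd (Finset.mem_univ _) h')
  intro k
  rw [hb]
  rfl

end Pool.Agent.Y797.FP
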