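import Pool.Agent.Y797.HC.Def
import Pool.Agent.Y797.GC.Def
set_option autoImplicit false

/-!
Definitions: the curves `z_e + 1/z_e = t_e + ∏_k P_{e,k}(x)`, `e = 1, ..., m`, and the symbols
`{z_e, z_f}` and `{z_e, P_{e,k} / P_{e,0}}` on them.
-/

namespace Pool.Agent.Y797.FP

open Pool.Agent.TH826.MK (KQ symb Torus Unramified)

/-- The data: for `e = 1, ..., m` polynomials `P_{e,0}, ..., P_{e,r_e}` in one variable and a
number `t_e`. -/
structure Dat (K : Type*) [Field K] (m : ℕ) where
  /-- the numbers `r_e` -/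
  r : Fin m → ℕ
  /-- the polynomials `P_{e,k}` -/
  P : (e : Fin m) → Fin (r e + 1) → Polynomial K
  /-- the numbers `t_e` -/
  t : Fin m → K

namespace Dat

variable {K : Type*} [Field K] {m : ℕ} (D : Dat K m)

/-- The polynomial `Q_e = ∏_k P_{e,k}`. -/
noncomputable def Q (e : Fin m) : Polynomial K := ∏ k, D.P e k

/-- The polynomial `F_e = t_e + ∏_k P_{e,k}`. -/
noncomputable def F (e : Fin m) : Polynomial K := Polynomial.C (D.t e) + D.Q e

/-- The polynomials `P_{e,k}` are monic, of positive degree, with integral coefficients. -/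
def Integral : Prop :=
  ∀ e k, (D.P e k).Monic ∧ 0 < (D.P e k).natDegree ∧ ∀ i, IsIntegral ℤ ((D.P e k).coeff i)

/-- All numbers `t_e` are of the form `ζ + 1/ζ` with roots of unity `ζ` (in `ℂ`). -/
def Cyclotomic (σ : K →+* ℂ) : Prop :=
  ∀ e, ∃ (ζ : ℂ) (N : ℕ), N ≠ 0 ∧ ζ ^ N = 1 ∧ σ (D.t e) = ζ + ζ⁻¹

/-- The product of all polynomials `P_{e,k}` is separable, and its complex roots have mutual
distances at least `9`. -/
def Separated (σ : K →+* ℂ) : Prop :=
  (∏ e, D.Q e).Separable ∧ ∀ a b : ℂ, (∏ e, D.Q e).eval₂ σ a = 0 →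
    (∏ e, D.Q e).eval₂ σ b = 0 → a ≠ b → 9 ≤ ‖a - b‖

/-- The linear form `x` and the polynomials `F_e`. -/
noncomputable def arr : HC.Arr K 1 m := ⟨fun _ _ => 1, D.F⟩

/-- The coordinate ring of the affine curve `z_e + 1/z_e = F_e(x)`, `e = 1, ..., m`. -/
abbrev CRing : Type _ := D.arr.CRing

/-- The functions on the curve defined by the polynomials in the variables `x = X (inl 0)` and
`z_e = X (inr e)`. -/
noncomputable def mkC : MvPolynomial (Fin 1 ⊕ Fin m) K →+* D.CRing := D.arr.mkC

/-- The function on the curve defined by the polynomial `p(x)`. -/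
noncomputable def fx : Polynomial K →+* D.CRing :=
  D.mkC.comp (Polynomial.aeval (MvPolynomial.X (Sum.inl 0))).toRingHom

/-- The function `∏_{e,k} P_{e,k}(x)` on the curve. -/
noncomputable def den : D.CRing := D.fx (∏ e, D.Q e)

/-- The coordinate ring of the part of the curve on which no `P_{e,k}(x)` vanishes. -/
def Open : Type _ := GC.Away D.CRing D.den

noncomputable instance : CommRing D.Open :=
  show CommRing (GC.Away D.CRing D.den) from inferInstance

noncomputable instance : Algebra D.CRing D.Open :=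
  show Algebra D.CRing (GC.Away D.CRing D.den) from inferInstance

instance : IsLocalization.Away D.den D.Open :=
  show IsLocalization.Away D.den (GC.Away D.CRing D.den) from inferInstance

/-- The restriction of the functions to the open part. -/
noncomputable def toO : D.CRing →+* D.Open := algebraMap D.CRing D.Open

/-- The constants. -/
noncomputable def cst (y : K) : D.Open := D.toO (D.mkC (MvPolynomial.C y))

theorem dvd_Q (e : Fin m) (k : Fin (D.r e + 1)) : D.P e k ∣ D.Q e :=
  Finset.dvd_prod_of_mem (D.P e) (Finset.mem_univ k)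

theorem isUnit_P (e : Fin m) (k : Fin (D.r e + 1)) : IsUnit (D.toO (D.fx (D.P e k))) := by
  have h : IsUnit (D.toO D.den) := IsLocalization.Away.algebraMap_isUnit (S := D.Open) D.den
  refine isUnit_of_dvd_unit ?_ h
  exact map_dvd D.toO (map_dvd D.fx ((D.dvd_Q e k).trans
    (Finset.dvd_prod_of_mem D.Q (Finset.mem_univ e))))

/-- The unit `z_e`. -/
noncomputable def uz (e : Fin m) : D.Openˣ := Units.map (D.toO : D.CRing →* D.Open) (D.arr.unit e)

/-- The unit `P_{e,k}(x)`. -/
noncomputable def up (e : Fin m) (k : Fin (D.r e + 1)) : D.Openˣ := (D.isUnit_P e k).unit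

/-- The symbol `{z_e, z_f}`. -/
noncomputable def zz (e f : Fin m) : KQ D.Open 2 := symb ![D.uz e, D.uz f]

/-- The symbol `{z_e, P_{e,k} / P_{e,0}}`, `1 ≤ k ≤ r_e`. -/
noncomputable def zp (e : Fin m) (k : Fin (D.r e)) : KQ D.Open 2 :=
  symb ![D.uz e, D.up e k.succ / D.up e 0]

/-- The symbols `{z_e, z_f}` and `{z_e, P_{e,k} / P_{e,0}}` are unramified at all discrete
valuations of all fields with a homomorphism from the coordinate ring of the open part, for example
of the function field. -/
def UnramifiedSymbols : Prop :=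
  ∀ (L : Type*) [Field L] (f : D.Open →+* L),
    (∀ e e', e ≠ e' → KQ.map 2 f (D.zz e e') ∈ Unramified L 2) ∧
    ∀ e k, KQ.map 2 f (D.zp e k) ∈ Unramified L 2

/-- The affine curve is smooth: at all complex points over `σ` the gradients of the `m` equations
are linearly independent. -/
def Smooth (σ : K →+* ℂ) : Prop :=
  ∀ p : Fin 1 ⊕ Fin m → ℂ, (∀ e, MvPolynomial.eval₂Hom σ p (D.arr.eqn e) = 0) →
    D.arr.SmoothAt σ p

/-- The regulators of the symbols `{z_e, z_f}`, `e < f`, and `{z_e, P_{e,k} / P_{e,0}}`,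
`1 ≤ k ≤ r_e`, are linearly independent: no nontrivial real linear combination of them vanishes on
all loops in the complex points over `σ` of the open part. -/
def IndependentRegulators (σ : K →+* ℂ) : Prop :=
  ∀ (a : Fin m → Fin m → ℝ) (b : (e : Fin m) → Fin (D.r e) → ℝ),
    (∀ T : Torus D.Open 1, (∀ θ y, T.e θ (D.cst y) = σ y) →
      ∑ e, ∑ f ∈ Finset.univ.filter (fun f => e < f), a e f * T.reg (D.zz e f) +
        ∑ e, ∑ k, b e k * T.reg (D.zp e k) = 0) →
    (∀ e f, e < f → a e f = 0) ∧ ∀ e k, b e k = 0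

end Dat

end Pool.Agent.Y797.FP
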