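import Pool.Agent.TH826.UH.Pair
set_option autoImplicit false

/-!
The regulator integral of two holomorphic functions without zeros on a disc along a loop in the
disc vanishes.
-/

namespace Pool.Agent.Y797.FP

open MeasureTheory Set Metric

open Pool.Agent.TH826.MK (circ norm_circ contDiff_circ)

open Pool.Agent.TH826.UH (pr NZ nz_circ ld_circ cont_int)

variable {c : ℂ} {r : ℝ} {g h : ℂ → ℂ}

/-- a logarithm of a function on a disc -/
theorem exists_log (hg : DifferentiableOn ℂ g (ball c r)) (hg0 : ∀ u ∈ ball c r, g u ≠ 0)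
    (hr : 0 < r) : ∃ (α : ℂ → ℂ) (a : ℝ), (∀ u ∈ ball c r, HasDerivAt α (deriv g u / g u) u) ∧
      ∀ u ∈ ball c r, Real.log ‖g u‖ = a + (α u).re := by
  obtain ⟨α, hα⟩ := ((hg.deriv isOpen_ball).div hg hg0).isExactOn_ball
  have hα' : ∀ u ∈ ball c r, HasDerivAt α (deriv g u / g u) u := hα
  have hgd : ∀ u ∈ ball c r, HasDerivAt g (deriv g u) u := fun u hu =>
    (hg.differentiableAt (isOpen_ball.mem_nhds hu)).hasDerivAt
  set k : ℂ → ℂ := fun u => g u * Complex.exp (-α u) with hk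
  have hkd : ∀ u ∈ ball c r, HasDerivAt k 0 u := by
    intro u hu
    have h1 := (hgd u hu).mul ((hα' u hu).neg.cexp)
    refine h1.congr_deriv ?_
    have := hg0 u hu
    field_simp
    ring
  have hc : c ∈ ball c r := mem_ball_self hr
  have hconst : ∀ u ∈ ball c r, k u = k c := fun u hu =>
    isOpen_ball.is_const_of_deriv_eq_zero (convex_ball c r).isPreconnected
      (fun w hw => (hkd w hw).differentiableAt.differentiableWithinAt)
      (fun w hw => (hkd w hw).deriv) hu hc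
  refine ⟨α, Real.log ‖k c‖, hα', fun u hu => ?_⟩
  have h1 : g u = k c * Complex.exp (α u) := by
    rw [← hconst u hu, hk]
    simp only
    rw [mul_assoc, ← Complex.exp_add, neg_add_cancel, Complex.exp_zero, mul_one]
  have hk0 : k c ≠ 0 := by
    rw [hk]
    exact mul_ne_zero (hg0 c hc) (Complex.exp_ne_zero _)
  rw [h1, norm_mul, Real.log_mul (norm_ne_zero_iff.2 hk0)
    (norm_ne_zero_iff.2 (Complex.exp_ne_zero _)), Complex.norm_exp, Real.log_exp]

theorem nz_comp (hg : DifferentiableOn ℂ g (ball c r)) (hg0 : ∀ u ∈ ball c r, g u ≠ 0)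
    {γ : ℝ → ℂ} (hγ : ContDiff ℝ 2 γ) (hb : ∀ t, γ t ∈ ball c r) : NZ fun t => g (γ t) := by
  refine ⟨?_, fun t => hg0 _ (hb t)⟩
  rw [contDiff_iff_contDiffAt]
  intro t
  have h1 : AnalyticAt ℂ g (γ t) := hg.analyticAt (isOpen_ball.mem_nhds (hb t))
  exact (h1.contDiffAt.restrict_scalars ℝ).comp t hγ.contDiffAt

/-- The regulator integral vanishes. -/
theorem pr_comp (hg : DifferentiableOn ℂ g (ball c r)) (hg0 : ∀ u ∈ ball c r, g u ≠ 0)
    (hh : DifferentiableOn ℂ h (ball c r)) (hh0 : ∀ u ∈ ball c r, h u ≠ 0)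
    {γ : ℝ → ℂ} (hγ : ContDiff ℝ 2 γ) (hb : ∀ t, γ t ∈ ball c r) (h01 : γ 1 = γ 0) :
    pr (fun t => g (γ t)) (fun t => h (γ t)) = 0 := by
  have hr : 0 < r := by
    have := mem_ball.1 (hb 0)
    exact dist_nonneg.trans_lt this
  obtain ⟨α, a, hα, hlg⟩ := exists_log hg hg0 hr
  obtain ⟨β, b, hβ, hlh⟩ := exists_log hh hh0 hr
  have hαd : DifferentiableOn ℂ α (ball c r) := fun u hu =>
    (hα u hu).differentiableAt.differentiableWithinAt
  obtain ⟨Ψ, hΨ⟩ := (hαd.mul ((hh.deriv isOpen_ball).div hh hh0)).isExactOn_ball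
  have hΨ' : ∀ u ∈ ball c r, HasDerivAt Ψ (α u * (deriv h u / h u)) u := hΨ
  have hG := nz_comp hg hg0 hγ hb
  have hH := nz_comp hh hh0 hγ hb
  have hγd : ∀ t, HasDerivAt γ (deriv γ t) t := fun t =>
    (hγ.differentiable (by norm_num) t).hasDerivAt
  have hgd : ∀ t, deriv (fun t => g (γ t)) t / g (γ t) =
      deriv g (γ t) / g (γ t) * deriv γ t := by
    intro t
    have h1 : HasDerivAt (fun t => g (γ t)) (deriv g (γ t) * deriv γ t) t :=
      (hg.differentiableAt (isOpen_ball.mem_nhds (hb t))).hasDerivAt.comp_of_eq t (hγd t) rfl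
    rw [h1.deriv]
    ring
  have hhd : ∀ t, deriv (fun t => h (γ t)) t / h (γ t) =
      deriv h (γ t) / h (γ t) * deriv γ t := by
    intro t
    have h1 : HasDerivAt (fun t => h (γ t)) (deriv h (γ t) * deriv γ t) t :=
      (hh.differentiableAt (isOpen_ball.mem_nhds (hb t))).hasDerivAt.comp_of_eq t (hγd t) rfl
    rw [h1.deriv]
    ring
  have hA : ∀ t, HasDerivAt (fun t => α (γ t)) (deriv g (γ t) / g (γ t) * deriv γ t) t :=
    fun t => (hα _ (hb t)).comp_of_eq t (hγd t) rfl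
  have hB : ∀ t, HasDerivAt (fun t => β (γ t)) (deriv h (γ t) / h (γ t) * deriv γ t) t :=
    fun t => (hβ _ (hb t)).comp_of_eq t (hγd t) rfl
  have hP : ∀ t, HasDerivAt (fun t => Ψ (γ t))
      (α (γ t) * (deriv h (γ t) / h (γ t)) * deriv γ t) t :=
    fun t => (hΨ' _ (hb t)).comp_of_eq t (hγd t) rfl
  have im_of : ∀ {f : ℝ → ℂ} {f' : ℂ} {t : ℝ}, HasDerivAt f f' t →
      HasDerivAt (fun t => (f t).im) f'.im t := fun hf =>
    Complex.imCLM.hasFDerivAt.comp_hasDerivAt _ hf
  have re_of : ∀ {f : ℝ → ℂ} {f' : ℂ} {t : ℝ}, HasDerivAt f f' t →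
      HasDerivAt (fun t => (f t).re) f'.re t := fun hf =>
    Complex.reCLM.hasFDerivAt.comp_hasDerivAt _ hf
  have hΦ : ∀ t, HasDerivAt (fun t => a * (β (γ t)).im - b * (α (γ t)).im + (Ψ (γ t)).im -
      (α (γ t)).im * (β (γ t)).re)
      (Real.log ‖g (γ t)‖ * (deriv (fun t => h (γ t)) t / h (γ t)).im -
        Real.log ‖h (γ t)‖ * (deriv (fun t => g (γ t)) t / g (γ t)).im) t := by
    intro t
    have h1 := ((((im_of (hB t)).const_mul a).sub ((im_of (hA t)).const_mul b)).add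
      (im_of (hP t))).sub ((im_of (hA t)).mul (re_of (hB t)))
    refine h1.congr_deriv ?_
    rw [hgd, hhd, hlg _ (hb t), hlh _ (hb t)]
    set p := deriv g (γ t) / g (γ t)
    set q := deriv h (γ t) / h (γ t)
    simp only [Complex.mul_im, Complex.mul_re]
    ring
  unfold pr
  rw [intervalIntegral.integral_eq_sub_of_hasDerivAt (fun t _ => hΦ t)
    ((cont_int hG hH).intervalIntegrable _ _), h01, sub_self]

/-- The winding number of a holomorphic function without zeros on a disc along a loop in the disc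
vanishes. -/
theorem wind_comp (hg : DifferentiableOn ℂ g (ball c r)) (hg0 : ∀ u ∈ ball c r, g u ≠ 0)
    {γ : ℝ → ℂ} (hγ : ContDiff ℝ 2 γ) (hb : ∀ t, γ t ∈ ball c r) (h01 : γ 1 = γ 0) :
    ∫ t in (0 : ℝ)..1, (deriv (fun t => g (γ t)) t / g (γ t)).im = 0 := by
  have h1 := pr_comp (h := fun _ => (Real.exp 1 : ℂ)) hg hg0 (differentiableOn_const _)
    (fun u _ => by exact_mod_cast (Real.exp_pos 1).ne') hγ hb h01
  unfold pr at h1
  have h2 : Real.log ‖(Real.exp 1 : ℂ)‖ = 1 := by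
    rw [Complex.norm_real, Real.norm_of_nonneg (Real.exp_pos 1).le, Real.log_exp]
  simp only [h2, deriv_const, zero_div, Complex.zero_im, mul_zero, one_mul, zero_sub] at h1
  rw [intervalIntegral.integral_neg, neg_eq_zero] at h1
  exact h1

theorem pr_circ_comp {R : ℝ} (hR : 0 < R) (hg : DifferentiableOn ℂ g (ball c r))
    (hg1 : ∀ u ∈ ball c r, 1 < ‖g u‖) {γ : ℝ → ℂ} (hγ : ContDiff ℝ 2 γ)
    (hb : ∀ t, γ t ∈ ball c r) (h01 : γ 1 = γ 0) : pr (circ R) (fun t => g (γ t)) < 0 := by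
  have hg0 : ∀ u ∈ ball c r, g u ≠ 0 := fun u hu => by
    rw [← norm_pos_iff]
    exact one_pos.trans (hg1 u hu)
  have nG := nz_comp hg hg0 hγ hb
  have hw := wind_comp hg hg0 hγ hb h01
  unfold pr
  simp only [ld_circ hR, norm_circ hR.le]
  have i1 : IntervalIntegrable (fun s => Real.log R *
      (deriv (fun t => g (γ t)) s / g (γ s)).im) volume 0 1 :=
    (continuous_const.mul nG.cont_im).intervalIntegrable _ _
  have i2 : IntervalIntegrable (fun s => Real.log ‖g (γ s)‖ * (2 * Real.pi)) volume 0 1 :=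
    (nG.cont_log.mul continuous_const).intervalIntegrable _ _
  rw [intervalIntegral.integral_sub i1 i2, intervalIntegral.integral_const_mul, hw, mul_zero,
    zero_sub, neg_lt_zero]
  refine intervalIntegral.intervalIntegral_pos_of_pos_on i2 (fun s _ => ?_) one_pos
  exact mul_pos (Real.log_pos (hg1 _ (hb s))) (by positivity)

end Pool.Agent.Y797.FP
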