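import Pool.Agent.Y797.FP.Sep
import Pool.Agent.Y797.FP.Loop
import Pool.Agent.Y797.HC.Tor
import Pool.Agent.TH826.UH.Final
set_option autoImplicit false

/-!
Complex points, smoothness, and loops.
-/

namespace Pool.Agent.Y797.FP

open Metric

open Pool.Agent.TH826.MK (KQ symb Torus pairing circ norm_circ contDiff_circ circ_add_one)

open Pool.Agent.TH826.UH (pr NZ nz_circ pairing_eq_pr pr_div)

section ev

theorem contDiff_eval₂ {K : Type*} [Field K] (σ : K →+* ℂ) (q : Polynomial K) :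
    ContDiff ℂ 2 fun x : ℂ => q.eval₂ σ x := by
  induction q using Polynomial.induction_on' with
  | add a b ha hb => simpa only [Polynomial.eval₂_add] using ha.add hb
  | monomial n a =>
    simp only [Polynomial.eval₂_monomial]
    exact contDiff_const.mul (contDiff_id.pow _)

variable {K : Type*} [Field K] {m : ℕ} {D : Dat K m} {σ : K →+* ℂ}

theorem val_eq (e : Fin m) (t : Fin 1 → ℂ) : D.arr.val σ e t = (D.F e).eval₂ σ (t 0) := by
  unfold HC.Arr.val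
  rw [lin_eq]
  rfl

theorem ev_fx {t : Fin 1 → ℂ} {z : Fin m → ℂ} (h : D.arr.IsPt σ t z) (p : Polynomial K) :
    h.ev (D.fx p) = p.eval₂ σ (t 0) := by
  rw [fx_eq, Polynomial.hom_eval₂]
  congr 1
  · ext y
    exact h.ev_cst y
  · exact h.ev_co (Sum.inl 0)

/-- the complex points of the open part -/
structure Pt (D : Dat K m) (σ : K →+* ℂ) (x : ℂ) (z : Fin m → ℂ) : Prop where
  pt : D.arr.IsPt σ (fun _ => x) z
  ne : (∏ e, D.Q e).eval₂ σ x ≠ 0

variable {x : ℂ} {z : Fin m → ℂ}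

/-- evaluation at a complex point of the open part -/
noncomputable def Pt.evO (h : Pt D σ x z) : D.Open →+* ℂ :=
  IsLocalization.Away.lift D.den (g := h.pt.ev)
    (isUnit_iff_ne_zero.2 (by unfold Dat.den; rw [ev_fx]; exact h.ne))

theorem Pt.evO_alg (h : Pt D σ x z) (b : D.CRing) : h.evO (D.toO b) = h.pt.ev b :=
  IsLocalization.Away.lift_eq _ _ _

theorem Pt.evO_cst (h : Pt D σ x z) (y : K) : h.evO (D.cst y) = σ y := by
  unfold Dat.cst
  rw [h.evO_alg]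
  exact h.pt.ev_cst y

theorem Pt.evO_uz (h : Pt D σ x z) (e : Fin m) : h.evO (D.uz e : D.Open) = z e := by
  have h1 : (D.uz e : D.Open) = D.toO (D.arr.co (Sum.inr e)) := rfl
  rw [h1, h.evO_alg]
  exact h.pt.ev_co (Sum.inr e)

theorem Pt.evO_up (h : Pt D σ x z) (e : Fin m) (k : Fin (D.r e + 1)) :
    h.evO (D.up e k : D.Open) = (D.P e k).eval₂ σ x := by
  have h1 : (D.up e k : D.Open) = D.toO (D.fx (D.P e k)) := rfl
  rw [h1, h.evO_alg, ev_fx]

theorem evO_congr {x' : ℂ} {z' : Fin m → ℂ} (h : Pt D σ x z) (h' : Pt D σ x' z') (e1 : x = x')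
    (e2 : z = z') : h.evO = h'.evO := by
  subst e1
  subst e2
  rfl

theorem contDiff_evO {X : (Fin 1 → ℝ) → ℂ} {Z : (Fin 1 → ℝ) → Fin m → ℂ}
    (hX : ContDiff ℝ 2 X) (hZ : ∀ e, ContDiff ℝ 2 fun θ => Z θ e)
    (hP : ∀ θ, Pt D σ (X θ) (Z θ)) (b : D.Open) : ContDiff ℝ 2 fun θ => (hP θ).evO b := by
  have hC : ∀ a : D.CRing, ContDiff ℝ 2 fun θ => (hP θ).pt.ev a := fun a =>
    HC.Arr.contDiff_ev (t := fun θ _ => X θ) (z := Z) (fun θ => (hP θ).pt) (fun _ => hX) hZ a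
  obtain ⟨⟨a, s⟩, hs⟩ := IsLocalization.surj (Submonoid.powers D.den) b
  obtain ⟨n, hn⟩ := s.2
  have hne : ∀ θ, (hP θ).pt.ev (s : D.CRing) ≠ 0 := by
    intro θ
    rw [← hn]
    show (hP θ).pt.ev (D.den ^ n) ≠ 0
    unfold Dat.den
    rw [map_pow, ev_fx]
    exact pow_ne_zero _ (hP θ).ne
  have e : (fun θ => (hP θ).evO b) =
      fun θ => (hP θ).pt.ev a * ((hP θ).pt.ev (s : D.CRing))⁻¹ := by
    funext θ
    rw [eq_mul_inv_iff_mul_eq₀ (hne θ), ← (hP θ).evO_alg, ← (hP θ).evO_alg, ← map_mul]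
    exact congrArg _ hs
  rw [e]
  exact (hC a).mul ((hC _).inv hne)

/-- A loop in the open part of the curve. -/
noncomputable def mkL {X : ℝ → ℂ} {Z : ℝ → Fin m → ℂ} (hX : ContDiff ℝ 2 X)
    (hZ : ∀ e, ContDiff ℝ 2 fun s => Z s e) (hX1 : ∀ s, X (s + 1) = X s)
    (hZ1 : ∀ s, Z (s + 1) = Z s) (hP : ∀ s, Pt D σ (X s) (Z s)) : Torus D.Open 1 where
  e θ := (hP (θ 0)).evO
  smooth b := contDiff_evO (X := fun θ => X (θ 0)) (Z := fun θ => Z (θ 0))
    (hX.comp (contDiff_apply ℝ ℝ 0)) (fun e => (hZ e).comp (contDiff_apply ℝ ℝ 0))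
    (fun θ => hP (θ 0)) b
  periodic θ i := by
    have h0 : (θ + Pi.single i 1 : Fin 1 → ℝ) 0 = θ 0 + 1 := by
      rw [Pi.add_apply, Subsingleton.elim i 0, Pi.single_eq_same]
    refine evO_congr _ _ ?_ ?_
    · rw [h0, hX1]
    · rw [h0, hZ1]

variable {X : ℝ → ℂ} {Z : ℝ → Fin m → ℂ} (hX : ContDiff ℝ 2 X)
    (hZ : ∀ e, ContDiff ℝ 2 fun s => Z s e) (hX1 : ∀ s, X (s + 1) = X s)
    (hZ1 : ∀ s, Z (s + 1) = Z s) (hP : ∀ s, Pt D σ (X s) (Z s))

include hX in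
theorem nz_P (hP : ∀ s, Pt D σ (X s) (Z s)) (e : Fin m) (k : Fin (D.r e + 1)) :
    NZ fun s => (D.P e k).eval₂ σ (X s) := by
  refine ⟨((contDiff_eval₂ σ (D.P e k)).restrict_scalars ℝ).comp hX, fun s h => (hP s).ne (root_all (root_Q h))⟩

theorem nz_Z (hZ : ∀ e, ContDiff ℝ 2 fun s => Z s e) (hP : ∀ s, Pt D σ (X s) (Z s)) (e : Fin m) :
    NZ fun s => Z s e := by
  refine ⟨hZ e, fun s h => ?_⟩
  have h1 := (hP s).pt e
  rw [h] at h1
  simp at h1

theorem mkL_cst (θ : Fin 1 → ℝ) (y : K) : (mkL hX hZ hX1 hZ1 hP).e θ (D.cst y) = σ y :=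
  (hP (θ 0)).evO_cst y

theorem mkL_zz (e f : Fin m) : (mkL hX hZ hX1 hZ1 hP).reg (D.zz e f) =
    pr (fun s => Z s e) fun s => Z s f := by
  rw [← pairing_eq_pr (nz_Z hZ hP e) (nz_Z hZ hP f)]
  unfold Dat.zz
  rw [Torus.reg_symb]
  unfold Torus.pair
  congr 1
  funext i θ
  fin_cases i
  · exact (hP (θ 0)).evO_uz e
  · exact (hP (θ 0)).evO_uz f

theorem mkL_zp (e : Fin m) (k : Fin (D.r e)) : (mkL hX hZ hX1 hZ1 hP).reg (D.zp e k) =
    pr (fun s => Z s e) (fun s => (D.P e k.succ).eval₂ σ (X s)) -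
      pr (fun s => Z s e) fun s => (D.P e 0).eval₂ σ (X s) := by
  have n1 := nz_P hX hP e k.succ
  have n2 := nz_P hX hP e 0
  rw [← pr_div (nz_Z hZ hP e) n1 n2, ← pairing_eq_pr (nz_Z hZ hP e) (n1.div n2)]
  unfold Dat.zp
  rw [Torus.reg_symb]
  unfold Torus.pair
  congr 1
  funext i θ
  fin_cases i
  · exact (hP (θ 0)).evO_uz e
  · show (hP (θ 0)).evO ((D.up e k.succ / D.up e 0 : D.Openˣ) : D.Open) =
      (D.P e k.succ).eval₂ σ (X (θ 0)) / (D.P e 0).eval₂ σ (X (θ 0))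
    have h1 : (hP (θ 0)).evO ((D.up e k.succ / D.up e 0 : D.Openˣ) : D.Open) *
        (hP (θ 0)).evO (D.up e 0 : D.Open) = (hP (θ 0)).evO (D.up e k.succ : D.Open) := by
      rw [← map_mul, ← Units.val_mul, div_mul_cancel]
    rw [Pt.evO_up, Pt.evO_up] at h1
    rw [eq_div_iff (n2.ne_zero (θ 0))]
    exact h1

end ev

end Pool.Agent.Y797.FP
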