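import Pool.Agent.Y797.FP.Sep
import Pool.Agent.Y797.FP.Tor
import Pool.Agent.Y797.HC.Dom
set_option autoImplicit false

/-!
The coordinate rings are domains.
-/

namespace Pool.Agent.Y797.FP

variable {K : Type*} [Field K] {m : ℕ} {D : Dat K m} {σ : K →+* ℂ}

theorem isDomain_CRing [CharZero K] (hI : D.Integral) (hC : D.Cyclotomic σ)
    (hS : D.Separated σ) : IsDomain D.CRing :=
  HC.isDomain_CRing D.arr σ fun e => ⟨fun _ => e, 0, box hI hC hS e, rfl⟩

theorem den_ne_zero (hI : D.Integral) : D.den ≠ 0 ∨ IsEmpty (K →+* ℂ) := by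
  by_cases h : Nonempty (K →+* ℂ)
  · left
    obtain ⟨σ⟩ := h
    have hQ : ((∏ e, D.Q e).map σ) ≠ 0 :=
      ((Polynomial.monic_prod_of_monic _ _ fun e _ => Q_monic hI e).map σ).ne_zero
    obtain ⟨x, hx⟩ : ∃ x : ℂ, (∏ e, D.Q e).eval₂ σ x ≠ 0 := by
      by_contra hcon
      push Not at hcon
      refine hQ (Polynomial.funext fun x => ?_)
      rw [Polynomial.eval_map, hcon, Polynomial.eval_zero]
    have hz : ∀ w : ℂ, ∃ z : ℂ, z ^ 2 - w * z + 1 = 0 := by
      intro w
      obtain ⟨s, hs⟩ := IsAlgClosed.exists_pow_nat_eq (w ^ 2 / 4 - 1) (n := 2) (by norm_num)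
      refine ⟨w / 2 + s, ?_⟩
      linear_combination hs
    choose z hz using hz
    have hP : Pt D σ x fun e => z ((D.F e).eval₂ σ x) := by
      refine ⟨fun e => ?_, hx⟩
      rw [val_eq]
      exact hz _
    intro h0
    have h1 := congrArg hP.pt.ev h0
    unfold Dat.den at h1
    rw [ev_fx, map_zero] at h1
    exact hx h1
  · right
    exact not_nonempty_iff.1 h

theorem isDomain_Open [CharZero K] (hI : D.Integral) (hC : D.Cyclotomic σ)
    (hS : D.Separated σ) : IsDomain D.Open := by
  have := isDomain_CRing hI hC hS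
  have h0 : D.den ≠ 0 := by
    rcases den_ne_zero hI with h | h
    · exact h
    · exact (h.false σ).elim
  exact IsLocalization.isDomain_of_le_nonZeroDivisors D.Open
    (powers_le_nonZeroDivisors_of_noZeroDivisors h0)

end Pool.Agent.Y797.FP
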