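import Pool.Agent.Y797.FP.Tor
set_option autoImplicit false

/-!
Smoothness of the curve and the independence of the regulators.
-/

namespace Pool.Agent.Y797.FP

open Metric

open Pool.Agent.TH826.MK (KQ symb Torus pairing circ norm_circ contDiff_circ circ_add_one zeta
  zeta_eq contDiffAt_zeta)

open Pool.Agent.TH826.UH (pr NZ nz_circ pr_prod pr_circ pr_lt_of_disc exists_radius)

section linalg

theorem vec_zero {d : ℕ} (I : Fin (d + 1) → Fin (d + 1) → ℝ) (hrow : ∀ l, ∑ k, I l k = 0)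
    (hneg : ∀ l k, l ≠ k → I l k < 0) (b : Fin d → ℝ)
    (h : ∀ l, ∑ k, b k * (I l k.succ - I l 0) = 0) : b = 0 := by
  set c : Fin (d + 1) → ℝ := Fin.cons (-∑ k, b k) b with hc
  have hc0 : c 0 = -∑ k, b k := rfl
  have hcs : ∀ k : Fin d, c k.succ = b k := fun k => rfl
  have h1 : ∀ l, ∑ k, c k * I l k = 0 := by
    intro l
    rw [Fin.sum_univ_succ, hc0]
    simp only [hcs]
    have h2 := h l
    simp only [mul_sub, Finset.sum_sub_distrib, ← Finset.sum_mul] at h2
    linarith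
  have h2 : ∀ l, ∑ k, (c k - c l) * I l k = 0 := by
    intro l
    simp only [sub_mul, Finset.sum_sub_distrib, ← Finset.mul_sum]
    rw [h1, hrow, mul_zero, sub_zero]
  obtain ⟨p, -, hp⟩ := Finset.exists_max_image Finset.univ c ⟨0, Finset.mem_univ _⟩
  have h3 : ∀ k, 0 ≤ (c k - c p) * I p k := by
    intro k
    by_cases hk : p = k
    · rw [hk]; simp
    · exact mul_nonneg_of_nonpos_of_nonpos (sub_nonpos.2 (hp k (Finset.mem_univ _)))
        (hneg p k hk).le
  have h4 := (Finset.sum_eq_zero_iff_of_nonneg fun k _ => h3 k).1 (h2 p)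
  have h5 : ∀ k, c k = c p := by
    intro k
    by_cases hk : p = k
    · rw [hk]
    · rcases mul_eq_zero.1 (h4 k (Finset.mem_univ _)) with h9 | h9
      · linarith
      · exact absurd h9 (hneg p k hk).ne
  have h6 : ∑ k, c k = 0 := by
    rw [Fin.sum_univ_succ, hc0]
    simp only [hcs]
    ring
  rw [Finset.sum_congr rfl fun k _ => h5 k, Finset.sum_const, Finset.card_univ,
    Fintype.card_fin, nsmul_eq_mul] at h6
  have h7 : c p = 0 := by
    refine (mul_eq_zero.1 h6).resolve_left ?_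
    positivity
  funext k
  rw [← hcs k, h5, h7]
  rfl

theorem pr_swap (G H : ℝ → ℂ) : pr G H = -pr H G := by
  unfold pr
  rw [← intervalIntegral.integral_neg]
  refine intervalIntegral.integral_congr fun s _ => ?_
  ring

end linalg

variable {K : Type*} [Field K] {m : ℕ} {D : Dat K m} {σ : K →+* ℂ}

/-- a branch of the inverse function of `F_e` near the root `c` of `Q_e` -/
structure LD (D : Dat K m) (σ : K →+* ℂ) (e : Fin m) (η : ℝ) (y : ℂ → ℂ) (c : ℂ) : Prop where
  an : DifferentiableOn ℂ y (ball 0 (2 + η))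
  val : ∀ u ∈ ball (0 : ℂ) (2 + η), (D.F e).eval₂ σ (y u) = u
  disc : ∀ u ∈ ball (0 : ℂ) (2 + η), ‖y u - c‖ < 9 / 2
  far : ∀ f, e ≠ f → ∀ u ∈ ball (0 : ℂ) (2 + η), 2 < ‖(D.F f).eval₂ σ (y u)‖

theorem exists_LD (hI : D.Integral) (hC : D.Cyclotomic σ) (hS : D.Separated σ) (e : Fin m) :
    ∃ η : ℝ, 0 < η ∧ ∀ c : ℂ, (D.Q e).eval₂ σ c = 0 → ∃ y, LD D σ e η y c := by
  obtain ⟨g, b, η, hB⟩ := exists_br hI hC hS e
  obtain ⟨x, han, hdisc, hprod, -⟩ := hB.sepd.exists_branches
  refine ⟨η, hB.sepd.eta, fun c hc => ?_⟩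
  have h1 : ∃ j, c = b j := by
    rw [← Polynomial.eval_map, hB.prod, Polynomial.eval_prod, Finset.prod_eq_zero_iff] at hc
    obtain ⟨j, -, hj⟩ := hc
    exact ⟨j, by simpa [sub_eq_zero] using hj⟩
  obtain ⟨j, rfl⟩ := h1
  refine ⟨x j, fun u hu => (han j u hu).differentiableAt.differentiableWithinAt, fun u hu => ?_,
    hdisc j, fun f hf u hu => ?_⟩
  · have h1 := congrArg (fun p => p.eval (x j u)) (hprod u hu)
    simp only [Polynomial.eval_sub, Polynomial.eval_C, Polynomial.eval_mul,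
      Polynomial.eval_prod, Polynomial.eval_X] at h1
    rw [Finset.prod_eq_zero (Finset.mem_univ j) (by simp), mul_zero, Polynomial.eval_map] at h1
    exact sub_eq_zero.1 h1
  · obtain ⟨g', b', η', hB'⟩ := exists_br hI hC hS f
    exact far hS hf hB hB' (hdisc j u hu)

/-- The curve is smooth. -/
theorem smooth (hI : D.Integral) (hC : D.Cyclotomic σ) (hS : D.Separated σ) : D.Smooth σ := by
  intro p hp
  obtain ⟨t, z, rfl⟩ : ∃ (t : Fin 1 → ℂ) (z : Fin m → ℂ), p = Sum.elim t z :=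
    ⟨p ∘ Sum.inl, p ∘ Sum.inr, (Sum.elim_comp_inl_inr p).symm⟩
  have hpt : ∀ e, z e ^ 2 - (D.F e).eval₂ σ (t 0) * z e + 1 = 0 := by
    intro e
    have h := hp e
    rw [D.arr.eval_eqn, val_eq] at h
    exact h
  unfold HC.Arr.SmoothAt
  rw [Fintype.linearIndependent_iff]
  intro a ha
  have hinr : ∀ f, a f * (2 * z f - (D.F f).eval₂ σ (t 0)) = 0 := by
    intro f
    have h1 := congrFun ha (Sum.inr f)
    simp only [Finset.sum_apply, Pi.smul_apply, smul_eq_mul, Pi.zero_apply] at h1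
    rw [Finset.sum_eq_single f] at h1
    · rwa [D.arr.pderiv_inr, if_pos rfl, val_eq] at h1
    · intro e _ he
      rw [D.arr.pderiv_inr, if_neg he, mul_zero]
    · exact fun h => absurd (Finset.mem_univ _) h
  have hinl : ∑ e, a e * ((Polynomial.derivative (D.F e)).eval₂ σ (t 0) * z e) = 0 := by
    have h1 := congrFun ha (Sum.inl 0)
    simp only [Finset.sum_apply, Pi.smul_apply, smul_eq_mul, Pi.zero_apply] at h1
    rw [← neg_eq_zero, ← Finset.sum_neg_distrib, ← h1]
    refine Finset.sum_congr rfl fun e _ => ?_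
    rw [D.arr.pderiv_inl, lin_eq]
    have h2 : σ (D.arr.l e 0) = 1 := map_one σ
    have h3 : D.arr.F e = D.F e := rfl
    rw [h2, h3]
    ring
  have hn : ∀ f, a f ≠ 0 → ‖(D.F f).eval₂ σ (t 0)‖ = 2 ∧ z f ≠ 0 := by
    intro f hf
    have h2 : (D.F f).eval₂ σ (t 0) = 2 * z f := by
      linear_combination -((mul_eq_zero.1 (hinr f)).resolve_left hf)
    have h4 : z f ^ 2 = 1 := by
      have h1 := hpt f
      rw [h2] at h1
      linear_combination -h1
    have h5 : ‖z f‖ = 1 := by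
      have h6 := congrArg norm h4
      rw [norm_pow, norm_one] at h6
      exact (pow_eq_one_iff_of_nonneg (norm_nonneg _) two_ne_zero).1 h6
    refine ⟨?_, fun h => ?_⟩
    · rw [h2, norm_mul, h5]
      norm_num
    · rw [h, norm_zero] at h5
      exact zero_ne_one h5
  intro e
  by_contra hae
  obtain ⟨g, b, η, hB⟩ := exists_br hI hC hS e
  obtain ⟨x, -, hdisc, hprod, hder⟩ := hB.sepd.exists_branches
  have hu : (D.F e).eval₂ σ (t 0) ∈ ball (0 : ℂ) (2 + η) := by
    rw [mem_ball_zero_iff, (hn e hae).1]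
    linarith [hB.sepd.eta]
  have h1 := congrArg (fun p => p.eval (t 0)) (hprod _ hu)
  simp only [Polynomial.eval_sub, Polynomial.eval_C, Polynomial.eval_mul,
    Polynomial.eval_prod, Polynomial.eval_X, Polynomial.eval_map, sub_self] at h1
  obtain ⟨j, -, hj⟩ := Finset.prod_eq_zero_iff.1
    ((mul_eq_zero.1 h1.symm).resolve_left hB.sepd.lead_ne_zero)
  rw [sub_eq_zero] at hj
  have hd := hdisc j _ hu
  rw [← hj] at hd
  have hoth : ∀ f, e ≠ f → a f = 0 := by
    intro f hf
    by_contra haf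
    obtain ⟨g', b', η', hB'⟩ := exists_br hI hC hS f
    have h2 := far hS hf hB hB' hd
    rw [(hn f haf).1] at h2
    exact lt_irrefl _ h2
  rw [Finset.sum_eq_single e (fun f _ hf => by rw [hoth f (Ne.symm hf), zero_mul])
    (fun h => absurd (Finset.mem_univ _) h)] at hinl
  have h6 := hder j _ hu
  rw [← hj, Polynomial.derivative_map, Polynomial.eval_map] at h6
  exact mul_ne_zero hae (mul_ne_zero h6 (hn e hae).2) hinl

section loops

/-- the other coordinates of the points of the loop, as functions of `u` -/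
noncomputable def Gf (D : Dat K m) (σ : K →+* ℂ) (y : ℂ → ℂ) (s : Fin m → Bool) (f : Fin m)
    (u : ℂ) : ℂ :=
  if s f = true then (zeta ((D.F f).eval₂ σ (y u)))⁻¹ else zeta ((D.F f).eval₂ σ (y u))

/-- the function `u` on the loop -/
noncomputable def gam (R t : ℝ) : ℂ := circ R t + (circ R t)⁻¹

/-- the coordinates `z_f` -/
noncomputable def Zf (D : Dat K m) (σ : K →+* ℂ) (e : Fin m) (y : ℂ → ℂ) (s : Fin m → Bool)
    (R t : ℝ) (f : Fin m) : ℂ := if f = e then circ R t else Gf D σ y s f (gam R t)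

variable {e : Fin m} {η : ℝ} {y : ℂ → ℂ} {c : ℂ} {R : ℝ}

theorem contDiff_gam (hR : 0 < R) : ContDiff ℝ 2 (gam R) :=
  (contDiff_circ R).add ((contDiff_circ R).inv (nz_circ hR).ne_zero)

theorem gam_per (t : ℝ) : gam R (t + 1) = gam R t := by
  unfold gam
  rw [circ_add_one]

theorem gam_mem (hR : 0 < R) (hη : R + R⁻¹ < 2 + η) (t : ℝ) : gam R t ∈ ball (0 : ℂ) (2 + η) := by
  rw [mem_ball_zero_iff]
  unfold gam
  refine (norm_add_le _ _).trans_lt ?_
  rw [norm_inv, norm_circ hR.le]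
  exact hη

theorem Zf_self (s : Fin m → Bool) (t : ℝ) : Zf D σ e y s R t e = circ R t := if_pos rfl

theorem Zf_ne (s : Fin m → Bool) (t : ℝ) {f : Fin m} (hf : e ≠ f) :
    Zf D σ e y s R t f = Gf D σ y s f (gam R t) := if_neg (Ne.symm hf)

theorem LD.F_diff (H : LD D σ e η y c) (p : Polynomial K) :
    DifferentiableOn ℂ (fun u => p.eval₂ σ (y u)) (ball 0 (2 + η)) :=
  (((contDiff_eval₂ σ p).differentiable (by norm_num)).differentiableOn
    (s := Set.univ)).comp H.an fun _ _ => Set.mem_univ _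

theorem LD.zeta_diff (H : LD D σ e η y c) {f : Fin m} (hf : e ≠ f) :
    DifferentiableOn ℂ (fun u => zeta ((D.F f).eval₂ σ (y u))) (ball 0 (2 + η)) := by
  intro u hu
  have h1 : DifferentiableAt ℂ zeta ((D.F f).eval₂ σ (y u)) :=
    (contDiffAt_zeta (H.far f hf u hu) (n := 1)).differentiableAt one_ne_zero
  have h2 : DifferentiableAt ℂ (fun u => (D.F f).eval₂ σ (y u)) u :=
    (H.F_diff (D.F f)).differentiableAt (isOpen_ball.mem_nhds hu)
  exact (DifferentiableAt.comp u h1 h2).differentiableWithinAt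

theorem LD.zeta_gt (H : LD D σ e η y c) {f : Fin m} (hf : e ≠ f) {u : ℂ}
    (hu : u ∈ ball (0 : ℂ) (2 + η)) : 1 < ‖zeta ((D.F f).eval₂ σ (y u))‖ :=
  HC.one_lt_norm_zeta (H.far f hf u hu)

theorem LD.zeta_ne (H : LD D σ e η y c) {f : Fin m} (hf : e ≠ f) {u : ℂ}
    (hu : u ∈ ball (0 : ℂ) (2 + η)) : zeta ((D.F f).eval₂ σ (y u)) ≠ 0 := by
  rw [← norm_pos_iff]
  exact one_pos.trans (H.zeta_gt hf hu)

theorem LD.G_diff (H : LD D σ e η y c) (s : Fin m → Bool) {f : Fin m} (hf : e ≠ f) :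
    DifferentiableOn ℂ (Gf D σ y s f) (ball 0 (2 + η)) := by
  unfold Gf
  by_cases h : s f = true
  · simp only [h, if_true]
    exact (H.zeta_diff hf).inv fun u hu => H.zeta_ne hf hu
  · simp only [h, if_false]
    exact H.zeta_diff hf

theorem LD.G_ne (H : LD D σ e η y c) (s : Fin m → Bool) {f : Fin m} (hf : e ≠ f) (u : ℂ)
    (hu : u ∈ ball (0 : ℂ) (2 + η)) : Gf D σ y s f u ≠ 0 := by
  unfold Gf
  split_ifs
  · exact inv_ne_zero (H.zeta_ne hf hu)
  · exact H.zeta_ne hf hu

theorem F_eq (f : Fin m) (x : ℂ) :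
    (D.F f).eval₂ σ x = σ (D.t f) + (D.Q f).eval₂ σ x := by
  unfold Dat.F
  rw [Polynomial.eval₂_add, Polynomial.eval₂_C]

theorem LD.Q_ne (H : LD D σ e η y c) (hC : D.Cyclotomic σ) {f : Fin m} (hf : e ≠ f) {u : ℂ}
    (hu : u ∈ ball (0 : ℂ) (2 + η)) : (D.Q f).eval₂ σ (y u) ≠ 0 := by
  intro h
  have h1 := H.far f hf u hu
  rw [F_eq, h, add_zero] at h1
  exact absurd h1 (not_lt.2 (norm_t_le hC f))

theorem LD.isPt (H : LD D σ e η y c) (hC : D.Cyclotomic σ) (hR : 1 < R)
    (hη : R + R⁻¹ < 2 + η) (s : Fin m → Bool) (t : ℝ) :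
    Pt D σ (y (gam R t)) (Zf D σ e y s R t) := by
  have hR0 : 0 < R := one_pos.trans hR
  have hu := gam_mem hR0 hη t
  have hc0 : circ R t ≠ 0 := (nz_circ hR0).ne_zero t
  constructor
  · intro f
    rw [val_eq]
    by_cases hf : e = f
    · subst hf
      rw [Zf_self, H.val _ hu]
      unfold gam
      field_simp
      ring
    · rw [Zf_ne s t hf]
      unfold Gf
      have h1 := zeta_eq (H.far f hf _ hu)
      split_ifs
      · have h2 := H.zeta_ne hf hu
        field_simp
        linear_combination h1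
      · exact h1
  · rw [Polynomial.eval₂_finsetProd, Finset.prod_ne_zero_iff]
    intro f _
    by_cases hf : e = f
    · subst hf
      intro h
      obtain ⟨ζ, N, hN, hζ, ht⟩ := hC e
      have hn1 : ‖ζ‖ = 1 := by
        have h3 := congrArg norm hζ
        rw [norm_pow, norm_one] at h3
        exact (pow_eq_one_iff_of_nonneg (norm_nonneg _) hN).1 h3
      have hζ0 : ζ ≠ 0 := fun h0 => by rw [h0, norm_zero] at hn1; exact zero_ne_one hn1
      have h1 := H.val _ hu
      rw [F_eq, h, add_zero, ht] at h1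
      have h3 : (circ R t - ζ) * (circ R t - ζ⁻¹) = 0 := by
        have h4 : gam R t = circ R t + (circ R t)⁻¹ := rfl
        rw [h4] at h1
        have h5 : circ R t * (circ R t)⁻¹ = 1 := mul_inv_cancel₀ hc0
        have h6 : ζ * ζ⁻¹ = 1 := mul_inv_cancel₀ hζ0
        linear_combination (-circ R t) * h1 - h5 + h6
      rcases mul_eq_zero.1 h3 with h4 | h4
      · have h5 := congrArg norm (sub_eq_zero.1 h4)
        rw [norm_circ hR0.le, hn1] at h5
        exact hR.ne' h5
      · have h5 := congrArg norm (sub_eq_zero.1 h4)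
        rw [norm_circ hR0.le, norm_inv, hn1, inv_one] at h5
        exact hR.ne' h5
    · exact H.Q_ne hC hf hu

end loops

end Pool.Agent.Y797.FP
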