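import Pool.Agent.Y797.FP.Unr
import Pool.Agent.TH826.UH.Sep
set_option autoImplicit false

/-!
The roots of the polynomials and the branches of the inverse functions.
-/

namespace Pool.Agent.Y797.FP

open Polynomial Metric

open Pool.Agent.TH826.UH (Sepd outer sepd_dist)

theorem exists_roots {P : ℂ[X]} (hP : P.Monic) (hs : P.Separable) {n : ℕ}
    (hn : P.natDegree = n) :
    ∃ b : Fin n → ℂ, Function.Injective b ∧ P = ∏ i, (X - C (b i)) := by
  have hc : P.roots.toFinset.card = n := by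
    rw [Multiset.toFinset_card_of_nodup (nodup_roots hs), ← hn]
    exact (splits_iff_card_roots.1 (IsAlgClosed.splits P))
  have e := Finset.equivFinOfCardEq hc
  refine ⟨fun i => (e.symm i : ℂ), fun i j hij => ?_, ?_⟩
  · exact e.symm.injective (Subtype.ext hij)
  · refine Pool.Agent.TH826.UH.eq_prod hP hn (fun i j hij => e.symm.injective (Subtype.ext hij))
      fun i => ?_
    have h1 := (e.symm i).2
    rw [Multiset.mem_toFinset] at h1
    exact isRoot_of_mem_roots h1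

theorem eq_prod_roots {P : ℂ[X]} (hP : P.Monic) (hs : P.Separable) :
    P = ∏ a ∈ P.roots.toFinset, (X - C a) := by
  obtain ⟨b, hb, h⟩ := exists_roots hP hs rfl
  have h1 : P.roots.toFinset = Finset.univ.image b := by
    ext a
    rw [Multiset.mem_toFinset, mem_roots hP.ne_zero, IsRoot.def, Finset.mem_image]
    conv_lhs => rw [h]
    rw [eval_prod, Finset.prod_eq_zero_iff]
    simp only [eval_sub, eval_X, eval_C, sub_eq_zero]
    constructor
    · rintro ⟨i, hi, h2⟩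
      exact ⟨i, hi, h2.symm⟩
    · rintro ⟨i, hi, h2⟩
      exact ⟨i, hi, h2.symm⟩
  rw [h1, Finset.prod_image fun i _ j _ hij => hb hij]
  exact h

theorem mul_dvd_prod {ι : Type*} [Fintype ι] [DecidableEq ι] {R : Type*} [CommRing R] (f : ι → R)
    {k l : ι} (h : k ≠ l) : f k * f l ∣ ∏ i, f i := by
  rw [← Finset.mul_prod_erase _ _ (Finset.mem_univ k)]
  exact mul_dvd_mul_left _ (Finset.dvd_prod_of_mem f
    (Finset.mem_erase.2 ⟨Ne.symm h, Finset.mem_univ l⟩))

theorem ne_of_coprime {K : Type*} [Field K] {σ : K →+* ℂ} {p q : K[X]} (h : IsCoprime p q) {a : ℂ}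
    (ha : p.eval₂ σ a = 0) : q.eval₂ σ a ≠ 0 := by
  intro hb
  obtain ⟨u, v, huv⟩ := h
  have h1 := congrArg (Polynomial.eval₂ σ a) huv
  rw [eval₂_add, eval₂_mul, eval₂_mul, ha, hb, mul_zero, mul_zero, add_zero, eval₂_one] at h1
  exact zero_ne_one h1

variable {K : Type*} [Field K] {m : ℕ} {D : Dat K m} {σ : K →+* ℂ}

theorem sep_Q (hS : D.Separated σ) (e : Fin m) : (D.Q e).Separable :=
  hS.1.of_dvd (Finset.dvd_prod_of_mem D.Q (Finset.mem_univ e))

theorem sep_P (hS : D.Separated σ) (e : Fin m) (k : Fin (D.r e + 1)) : (D.P e k).Separable :=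
  (sep_Q hS e).of_dvd (D.dvd_Q e k)

theorem cop_Q (hS : D.Separated σ) {e f : Fin m} (h : e ≠ f) : IsCoprime (D.Q e) (D.Q f) :=
  (hS.1.of_dvd (mul_dvd_prod D.Q h)).isCoprime

theorem cop_P (hS : D.Separated σ) (e : Fin m) {k l : Fin (D.r e + 1)} (h : k ≠ l) :
    IsCoprime (D.P e k) (D.P e l) :=
  ((sep_Q hS e).of_dvd (mul_dvd_prod (D.P e) h)).isCoprime

theorem root_all {e : Fin m} {a : ℂ} (ha : (D.Q e).eval₂ σ a = 0) :
    (∏ e, D.Q e).eval₂ σ a = 0 := by
  rw [eval₂_finsetProd]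
  exact Finset.prod_eq_zero (Finset.mem_univ e) ha

theorem root_Q {e : Fin m} {k : Fin (D.r e + 1)} {a : ℂ} (ha : (D.P e k).eval₂ σ a = 0) :
    (D.Q e).eval₂ σ a = 0 := by
  unfold Dat.Q
  rw [eval₂_finsetProd]
  exact Finset.prod_eq_zero (Finset.mem_univ k) ha

theorem one_le_prod {ι : Type*} (T : Finset ι) {f : ι → ℝ} (h : ∀ i ∈ T, 1 ≤ f i) :
    1 ≤ ∏ i ∈ T, f i := by
  calc (1 : ℝ) = ∏ _i ∈ T, 1 := by rw [Finset.prod_const_one]
    _ ≤ ∏ i ∈ T, f i := Finset.prod_le_prod (fun _ _ => zero_le_one) h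

/-- the roots of `Q_e` -/
structure Br (D : Dat K m) (σ : K →+* ℂ) (e : Fin m) {g : ℕ} (b : Fin (g + 1) → ℂ) (η : ℝ) :
    Prop where
  prod : (D.Q e).map σ = ∏ j, (X - C (b j))
  sepd : Sepd ((D.F e).map σ) b (9 / 2) η

theorem norm_t_le (hC : D.Cyclotomic σ) (e : Fin m) : ‖σ (D.t e)‖ ≤ 2 := by
  obtain ⟨ζ, N, hN, hζ, ht⟩ := hC e
  have h1 : ‖ζ‖ = 1 := by
    have h3 := congrArg norm hζ
    rw [norm_pow, norm_one] at h3
    exact (pow_eq_one_iff_of_nonneg (norm_nonneg _) hN).1 h3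
  rw [ht]
  refine (norm_add_le _ _).trans ?_
  rw [norm_inv, h1]
  norm_num

theorem root_of_prod {e : Fin m} {g : ℕ} {b : Fin (g + 1) → ℂ}
    (h : (D.Q e).map σ = ∏ j, (X - C (b j))) (j : Fin (g + 1)) : (D.Q e).eval₂ σ (b j) = 0 := by
  rw [← eval_map, h, eval_prod]
  exact Finset.prod_eq_zero (Finset.mem_univ j) (by simp)

theorem F_map {e : Fin m} {g : ℕ} {b : Fin (g + 1) → ℂ}
    (h : (D.Q e).map σ = ∏ j, (X - C (b j))) :
    (D.F e).map σ = C (σ (D.t e)) + C 1 * ∏ j, (X - C (b j)) := by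
  unfold Dat.F
  rw [Polynomial.map_add, Polynomial.map_C, h, C_1, one_mul]

theorem exists_br (hI : D.Integral) (hC : D.Cyclotomic σ) (hS : D.Separated σ) (e : Fin m) :
    ∃ (g : ℕ) (b : Fin (g + 1) → ℂ) (η : ℝ), Br D σ e b η := by
  have hm := Q_monic hI e
  have hd := Q_pos hI e
  obtain ⟨g, hg⟩ : ∃ g, (D.Q e).natDegree = g + 1 := ⟨(D.Q e).natDegree - 1, by omega⟩
  obtain ⟨b, hb, hprod⟩ := exists_roots (n := g + 1) (hm.map σ) ((sep_Q hS e).map)
    (by rw [natDegree_map]; exact hg)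
  have hroot := root_of_prod hprod
  obtain ⟨η, hη⟩ := sepd_dist (lam := 1) (t := σ (D.t e)) one_ne_zero (F_map hprod) (D := 9)
    (by norm_num)
    (fun i j hij => hS.2 _ _ (root_all (hroot i)) (root_all (hroot j)) fun h => hij (hb h))
    (norm_t_le hC e) (by
      rw [norm_one, one_mul]
      have h1 := norm_t_le hC e
      have h2 : (2 + ‖σ (D.t e)‖) * 2 ^ (g + 1) ≤ 4 * 2 ^ (g + 1) := by gcongr; linarith
      have h3 : (4 : ℝ) * 2 ^ (g + 1) ≤ 8 ^ (g + 1) := by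
        have h4 : (8 : ℝ) ^ (g + 1) = 4 ^ (g + 1) * 2 ^ (g + 1) := by
          rw [← mul_pow]
          norm_num
        rw [h4]
        have h5 : (4 : ℝ) ≤ 4 ^ (g + 1) := le_self_pow₀ (by norm_num) (Nat.succ_ne_zero g)
        gcongr
      have h6 : (8 : ℝ) ^ (g + 1) < 9 ^ (g + 1) :=
        pow_lt_pow_left₀ (by norm_num) (by norm_num) (Nat.succ_ne_zero g)
      linarith)
  exact ⟨g, b, η, hprod, hη⟩

/-- near the roots of `Q_e` the value of `F_f`, `f ≠ e`, is large -/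
theorem far {e f : Fin m} (hS : D.Separated σ) (hef : e ≠ f) {g g' : ℕ} {b : Fin (g + 1) → ℂ}
    {b' : Fin (g' + 1) → ℂ} {η η' : ℝ} (hB : Br D σ e b η) (hB' : Br D σ f b' η') {x : ℂ}
    {j : Fin (g + 1)} (hx : ‖x - b j‖ < 9 / 2) : 2 < ‖(D.F f).eval₂ σ x‖ := by
  have h1 := hB'.sepd.out x (fun i => by
    have h2 := root_of_prod hB.prod j
    have h3 := root_of_prod hB'.prod i
    have h4 : b j ≠ b' i := fun h => ne_of_coprime (cop_Q hS hef) h2 (by rw [h]; exact h3)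
    have h5 := hS.2 _ _ (root_all h2) (root_all h3) h4
    have h6 : ‖b j - b' i‖ ≤ ‖x - b' i‖ + ‖x - b j‖ := by
      have : b j - b' i = (x - b' i) - (x - b j) := by ring
      rw [this]
      exact norm_sub_le _ _
    linarith)
  rw [eval_map] at h1
  linarith [hB'.sepd.eta]

theorem lin_eq (e : Fin m) (t : Fin 1 → ℂ) : D.arr.lin σ e t = t 0 := by
  unfold HC.Arr.lin
  rw [Fin.sum_univ_one]
  show σ 1 * t 0 = _
  rw [map_one, one_mul]

/-- the arrangement is separated -/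
theorem box (hI : D.Integral) (hC : D.Cyclotomic σ) (hS : D.Separated σ) (e : Fin m) :
    D.arr.Box σ (fun _ => e) := by
  classical
  obtain ⟨g, b, η, hB⟩ := exists_br hI hC hS e
  obtain ⟨x, -, hdisc, hprod, -⟩ := hB.sepd.exists_branches
  have h0 : (0 : ℂ) ∈ ball (0 : ℂ) (2 + η) := mem_ball_self (by linarith [hB.sepd.eta])
  have hlead : ((D.F e).map σ).leadingCoeff = 1 :=
    ((monic_C_add (Q_monic hI e) (Q_pos hI e) (D.t e)).map σ : ((D.F e).map σ).Monic)
  have hF : (D.F e).map σ = ∏ j, (X - C (x j 0)) := by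
    have h1 := hprod 0 h0
    rw [hlead, C_0, sub_zero, C_1, one_mul] at h1
    exact h1
  have hval : ∀ j, ‖∏ i, (x j 0 - b i)‖ ≤ 2 := by
    intro j
    have h1 : ((D.F e).map σ).eval (x j 0) = 0 := by
      rw [hF, eval_prod]
      exact Finset.prod_eq_zero (Finset.mem_univ j) (by simp)
    rw [F_map hB.prod] at h1
    simp only [eval_add, eval_mul, eval_C, eval_prod, eval_sub, eval_X, one_mul] at h1
    rw [show ∏ i, (x j 0 - b i) = -σ (D.t e) by linear_combination h1, norm_neg]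
    exact norm_t_le hC e
  have hbig : ∀ j i, i ≠ j → 9 / 2 ≤ ‖x j 0 - b i‖ := by
    intro j i hij
    have h1 := hdisc j 0 h0
    have h3 := hB.sepd.sep j i (Ne.symm hij)
    have h2 : ‖b j - b i‖ ≤ ‖x j 0 - b i‖ + ‖x j 0 - b j‖ := by
      have : b j - b i = (x j 0 - b i) - (x j 0 - b j) := by ring
      rw [this]
      exact norm_sub_le _ _
    linarith
  have hle2 : ∀ j, ‖x j 0 - b j‖ ≤ 2 := by
    intro j
    have h1 := hval j
    rw [← Finset.mul_prod_erase _ _ (Finset.mem_univ j), norm_mul, norm_prod] at h1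
    have h2 : 1 ≤ ∏ i ∈ Finset.univ.erase j, ‖x j 0 - b i‖ :=
      one_le_prod _ fun i hi => by
        have := hbig j i (Finset.ne_of_mem_erase hi)
        linarith
    calc ‖x j 0 - b j‖ = ‖x j 0 - b j‖ * 1 := (mul_one _).symm
      _ ≤ ‖x j 0 - b j‖ * ∏ i ∈ Finset.univ.erase j, ‖x j 0 - b i‖ := by gcongr
      _ ≤ 2 := h1
  have hlehalf : ∀ j l, l ≠ j → ‖x j 0 - b j‖ ≤ 1 / 2 := by
    intro j l hl
    have h1 := hval j
    rw [← Finset.mul_prod_erase _ _ (Finset.mem_univ j), norm_mul, norm_prod,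
      ← Finset.mul_prod_erase (Finset.univ.erase j) _
        (Finset.mem_erase.2 ⟨hl, Finset.mem_univ l⟩)] at h1
    have h2 : 1 ≤ ∏ i ∈ (Finset.univ.erase j).erase l, ‖x j 0 - b i‖ :=
      one_le_prod _ fun i hi => by
        have := hbig j i (Finset.ne_of_mem_erase (Finset.mem_of_mem_erase hi))
        linarith
    have h3 : ‖x j 0 - b j‖ * (9 / 2) ≤ 2 := by
      refine le_trans ?_ h1
      have h4 : 9 / 2 ≤ ‖x j 0 - b l‖ * ∏ i ∈ (Finset.univ.erase j).erase l, ‖x j 0 - b i‖ := by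
        calc (9 / 2 : ℝ) = 9 / 2 * 1 := (mul_one _).symm
          _ ≤ _ := by gcongr; exact hbig j l hl
      gcongr
    linarith
  refine ⟨fun i j _ => Subsingleton.elim i j, ?_, fun _ => g, fun _ j => x j 0, fun _ => ?_,
    fun _ j j' hjj => ?_, fun t ht f hf => ?_⟩
  · rw [Matrix.det_fin_one]
    exact one_ne_zero
  · exact hF
  · have h1 := hlehalf j j' (Ne.symm hjj)
    have h2 := hlehalf j' j hjj
    have h3 := hB.sepd.sep j j' hjj
    have h4 : ‖b j - b j'‖ ≤ ‖x j 0 - x j' 0‖ + ‖x j 0 - b j‖ + ‖x j' 0 - b j'‖ := by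
      have : b j - b j' = (x j 0 - x j' 0) - (x j 0 - b j) + (x j' 0 - b j') := by ring
      rw [this]
      exact (norm_add_le _ _).trans (add_le_add (norm_sub_le _ _) le_rfl)
    linarith
  · obtain ⟨g', b', η', hB'⟩ := exists_br hI hC hS f
    have h1 := ht 0
    rw [lin_eq] at h1 ⊢
    refine far hS (hf 0) hB hB' (j := 0) ?_
    have h2 := hle2 0
    have h3 : ‖t 0 - b 0‖ ≤ ‖t 0 - x 0 0‖ + ‖x 0 0 - b 0‖ := by
      have : t 0 - b 0 = (t 0 - x 0 0) + (x 0 0 - b 0) := by ring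
      rw [this]
      exact norm_add_le _ _
    linarith

end Pool.Agent.Y797.FP
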