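import Pool.Agent.Y797.FP.Def
import Pool.Agent.Y797.HC.Unr
import Pool.Agent.TH826.UH.Ring
set_option autoImplicit false

/-!
The symbols `{z_e, z_f}` and `{z_e, P_{e,k} / P_{e,0}}` are unramified at all discrete valuations.
-/

namespace Pool.Agent.Y797.FP

open Pool.Agent.TH826.MK

open Pool.Agent.TH826.SX

open Pool.Agent.Y797.HC (OU mem_of_rep_all val_z_of_le ou_z_of_lt ou_eval val_eval_le)

open scoped WithZero

section poly

variable {K : Type*} [Field K]

theorem int_mul {p q : Polynomial K} (hp : ∀ i, IsIntegral ℤ (p.coeff i))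
    (hq : ∀ i, IsIntegral ℤ (q.coeff i)) (i : ℕ) : IsIntegral ℤ ((p * q).coeff i) := by
  rw [Polynomial.coeff_mul]
  exact IsIntegral.sum _ fun j _ => (hp _).mul (hq _)

theorem int_prod {ι : Type*} (T : Finset ι) {p : ι → Polynomial K}
    (hp : ∀ k i, IsIntegral ℤ ((p k).coeff i)) : ∀ i, IsIntegral ℤ ((∏ k ∈ T, p k).coeff i) := by
  classical
  induction T using Finset.induction_on with
  | empty =>
    intro i
    rw [Finset.prod_empty, Polynomial.coeff_one]
    split_ifs
    · exact isIntegral_one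
    · exact isIntegral_zero
  | insert k T hk ih =>
    rw [Finset.prod_insert hk]
    exact int_mul (hp k) ih

theorem int_add_C {p : Polynomial K} (hp : ∀ i, IsIntegral ℤ (p.coeff i)) {t : K}
    (ht : IsIntegral ℤ t) (i : ℕ) : IsIntegral ℤ ((Polynomial.C t + p).coeff i) := by
  rw [Polynomial.coeff_add, Polynomial.coeff_C]
  split_ifs
  · exact ht.add (hp i)
  · rw [zero_add]
    exact hp i

theorem monic_C_add {p : Polynomial K} (hp : p.Monic) (hd : 0 < p.natDegree) (t : K) :
    (Polynomial.C t + p).Monic := by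
  refine Polynomial.Monic.add_of_right hp ?_
  refine lt_of_le_of_lt Polynomial.degree_C_le ?_
  rw [Polynomial.degree_eq_natDegree hp.ne_zero]
  exact_mod_cast hd

theorem natDegree_C_add' (p : Polynomial K) (t : K) :
    (Polynomial.C t + p).natDegree = p.natDegree := by
  rw [add_comm, Polynomial.natDegree_add_C]

theorem natDegree_prod_pos {d : ℕ} {P : Fin (d + 1) → Polynomial K} (hP : ∀ k, (P k).Monic)
    (hd : ∀ k, 0 < (P k).natDegree) : 0 < (∏ k, P k).natDegree := by
  rw [Polynomial.natDegree_prod_of_monic _ _ fun k _ => hP k]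
  exact Finset.sum_pos (fun k _ => hd k) ⟨0, Finset.mem_univ _⟩

/-- the numbers `ζ + 1/ζ` are integral -/
theorem isIntegral_of_zeta (s : K →+* ℂ) {t : K} {ζ : ℂ} {N : ℕ} (hN : N ≠ 0) (hζ : ζ ^ N = 1)
    (ht : s t = ζ + ζ⁻¹) : IsIntegral ℤ t := by
  have h1 : ∀ w : ℂ, w ^ N = 1 → IsIntegral ℤ w := fun w hw =>
    IsIntegral.of_pow (Nat.pos_of_ne_zero hN) (by rw [hw]; exact isIntegral_one)
  have h2 : IsIntegral ℤ (s t) := by
    rw [ht]
    exact (h1 _ hζ).add (h1 _ (by rw [inv_pow, hζ, inv_one]))
  exact (isIntegral_algHom_iff s.toIntAlgHom s.injective).1 h2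

end poly

section val

variable {L : Type*} [Field L] (v : Valuation L ℤᵐ⁰) {K : Type*} [Field K]

/-- The main lemma. -/
theorem symb_mem (s : K →+* ℂ) (c : K →+* L) {d : ℕ} {P : Fin (d + 1) → Polynomial K}
    {t : K} {x : L} (hP : ∀ k, (P k).Monic) (hd : ∀ k, 0 < (P k).natDegree)
    (hi : ∀ k i, IsIntegral ℤ ((P k).coeff i)) {ζ : ℂ} {N : ℕ} (hN : N ≠ 0) (hζ : ζ ^ N = 1)
    (ht : s t = ζ + ζ⁻¹) (z : Lˣ) (p : Fin (d + 1) → Lˣ)
    (hp : ∀ k, (p k : L) = (P k).eval₂ c x)
    (hz : (z : L) + (z : L)⁻¹ = c t + ∏ k, (p k : L)) (k l : Fin (d + 1)) :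
    symb ![z, p k / p l] ∈ unitPart v 2 := by
  have hti := isIntegral_of_zeta s hN hζ ht
  have hvt : v (c t) ≤ 1 := val_le_one_of_integral v (map_isIntegral_int c hti)
  have hcP : ∀ k i, v (((P k).map c).coeff i) ≤ 1 := by
    intro k i
    rw [Polynomial.coeff_map]
    exact val_le_one_of_integral v (map_isIntegral_int c (hi k i))
  have hp' : ∀ k, (p k : L) = ((P k).map c).eval x := fun k => by
    rw [hp, Polynomial.eval_map]
  rcases lt_or_ge 1 (v x) with hx | hx
  · -- the points at infinity
    have hx0 : x ≠ 0 := by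
      rintro rfl
      rw [map_zero] at hx
      exact absurd hx (not_lt.2 zero_le_one)
    set xu : Lˣ := Units.mk0 x hx0 with hxu
    set Q : Polynomial K := ∏ k, P k with hQ
    have hQm : Q.Monic := Polynomial.monic_prod_of_monic _ _ fun k _ => hP k
    have hQd : 0 < Q.natDegree := natDegree_prod_pos hP hd
    set F : Polynomial K := Polynomial.C t + Q with hF
    have hFm : F.Monic := monic_C_add hQm hQd t
    have hFc : ∀ i, v ((F.map c).coeff i) ≤ 1 := by
      intro i
      rw [Polynomial.coeff_map]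
      exact val_le_one_of_integral v (map_isIntegral_int c
        (int_add_C (int_prod _ hi) hti i))
    set φ : L := c t + ∏ k, (p k : L) with hφ
    have hφF : (F.map c).eval x = φ := by
      rw [hF, hQ, hφ, Polynomial.map_add, Polynomial.map_C, Polynomial.eval_add,
        Polynomial.eval_C, Polynomial.map_prod, Polynomial.eval_prod]
      congr 1
      exact Finset.prod_congr rfl fun k _ => (hp' k).symm
    have hO := ou_eval v (hFm.map c) hFc hx
    rw [hφF, Polynomial.natDegree_map] at hO
    set n := F.natDegree with hn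
    have hxn : x ^ n ≠ 0 := pow_ne_zero _ hx0
    have hφ0 : φ ≠ 0 := by
      intro h
      have h1 := hO.val
      rw [h, zero_mul, map_zero] at h1
      exact zero_ne_one h1
    have hn0 : n ≠ 0 := by
      rw [hn, hF, natDegree_C_add']
      exact hQd.ne'
    have hvφ : 1 < v φ := by
      have h1 := hO.val
      rw [map_mul, map_inv₀, map_pow] at h1
      have h2 : v φ = v x ^ n := by
        have h3 : v x ^ n ≠ 0 := pow_ne_zero _ ((Valuation.ne_zero_iff v).2 hx0)
        rwa [mul_inv_eq_one₀ h3] at h1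
      rw [h2]
      exact one_lt_pow₀ hx hn0
    refine mem_of_rep_all v _ (fun _ => xu) Finset.univ (fun j _ => ?_) ?_
    · fin_cases j
      · -- the entry `z`
        show ∃ m : ℕ, m ≠ 0 ∧ ∃ k : ℤ, OU v ((z ^ m * xu ^ (-k) : Lˣ) : L)
        rcases ou_z_of_lt v hz hvφ with h1 | h1
        · refine ⟨1, one_ne_zero, (n : ℤ), ?_⟩
          have h2 := h1.mul hO
          have e : (((z ^ 1 * xu ^ (-(n : ℤ)) : Lˣ)) : L) =
              (z : L) * φ⁻¹ * (φ * (x ^ n)⁻¹) := by
            rw [pow_one, Units.val_mul, Units.val_zpow_eq_zpow_val, zpow_neg, zpow_natCast, hxu,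
              Units.val_mk0]
            field_simp
          rw [e]
          exact h2
        · refine ⟨1, one_ne_zero, -(n : ℤ), ?_⟩
          have h2 := h1.mul hO.inv
          have e : (((z ^ 1 * xu ^ (-(-(n : ℤ))) : Lˣ)) : L) =
              (z : L) * φ * (φ * (x ^ n)⁻¹)⁻¹ := by
            rw [pow_one, Units.val_mul, Units.val_zpow_eq_zpow_val, neg_neg, zpow_natCast, hxu,
              Units.val_mk0]
            field_simp
          rw [e]
          exact h2
      · -- the entry `p_k / p_l`
        show ∃ m : ℕ, m ≠ 0 ∧ ∃ i : ℤ, OU v (((p k / p l) ^ m * xu ^ (-i) : Lˣ) : L)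
        have hk := ou_eval v ((hP k).map c) (hcP k) hx
        have hl := ou_eval v ((hP l).map c) (hcP l) hx
        rw [← hp'] at hk hl
        refine ⟨1, one_ne_zero, (((P k).map c).natDegree : ℤ) - (((P l).map c).natDegree : ℤ), ?_⟩
        have h2 := hk.mul hl.inv
        have e : ((((p k / p l) ^ 1 * xu ^ (-((((P k).map c).natDegree : ℤ) -
            (((P l).map c).natDegree : ℤ))) : Lˣ)) : L) =
            (p k : L) * (x ^ ((P k).map c).natDegree)⁻¹ *
              ((p l : L) * (x ^ ((P l).map c).natDegree)⁻¹)⁻¹ := by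
          rw [pow_one, Units.val_mul, Units.val_div_eq_div_val, Units.val_zpow_eq_zpow_val,
            neg_sub, hxu, Units.val_mk0, zpow_sub₀ hx0, zpow_natCast, zpow_natCast]
          have h3 := (p l).ne_zero
          field_simp
        rw [e]
        exact h2
    · have e : (fun j : Fin 2 => if j ∈ (Finset.univ : Finset (Fin 2)) then xu else
          (![z, p k / p l] : Fin 2 → Lˣ) j) = fun _ => xu := by
        funext j
        simp
      rw [e, symb_self (fun _ : Fin 2 => xu) (i := 0) (j := 1) (by decide) rfl]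
      exact Submodule.zero_mem _
  · have hle : ∀ k, v (p k : L) ≤ 1 := fun k => by
      rw [hp']
      exact val_eval_le v (hcP k) hx
    have hpr : v (∏ k, (p k : L)) ≤ 1 := by
      rw [map_prod]
      exact Finset.prod_le_one' fun k _ => hle k
    have hφ : v (c t + ∏ k, (p k : L)) ≤ 1 := (v.map_add _ _).trans (max_le hvt hpr)
    have hz1 := val_z_of_le v hz hφ
    by_cases hB : ∃ k, v (p k : L) < 1
    · obtain ⟨k0, hk0⟩ := hB
      have h1 : v (∏ k, (p k : L)) < 1 := by
        rw [← Finset.mul_prod_erase _ _ (Finset.mem_univ k0), map_mul, map_prod]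
        calc v (p k0 : L) * ∏ k ∈ Finset.univ.erase k0, v (p k : L) ≤ v (p k0 : L) * 1 := by
              gcongr
              exact Finset.prod_le_one' fun k _ => hle k
          _ < 1 := by rw [mul_one]; exact hk0
      have h2 : v ((z : L) ^ 2 - c t * z + 1) < 1 := by
        have h3 : (z : L) ^ 2 - c t * z + 1 = (∏ k, (p k : L)) * z := by
          have h4 : (z : L) * (z : L)⁻¹ = 1 := mul_inv_cancel₀ z.ne_zero
          linear_combination (z : L) * hz - h4
        rw [h3, map_mul, hz1, mul_one]
        exact h1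
      have h3 := Pool.Agent.TH826.UH.val_pow_sub_one_lt s c v hN hζ ht hvt hz1.le h2
      exact mem_unitPart_of_pow v 0 _ hN h3
    · push Not at hB
      refine Submodule.subset_span ⟨_, fun i => ?_, rfl⟩
      fin_cases i
      · exact hz1
      · show v ((p k / p l : Lˣ) : L) = 1
        rw [Units.val_div_eq_div_val, map_div₀, le_antisymm (hle k) (hB k),
          le_antisymm (hle l) (hB l), div_one]

end val

section dat

variable {K : Type*} [Field K] {m : ℕ} {D : Dat K m} {σ : K →+* ℂ}

theorem Q_monic (hI : D.Integral) (e : Fin m) : (D.Q e).Monic :=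
  Polynomial.monic_prod_of_monic _ _ fun k _ => (hI e k).1

theorem Q_pos (hI : D.Integral) (e : Fin m) : 0 < (D.Q e).natDegree :=
  natDegree_prod_pos (fun k => (hI e k).1) fun k => (hI e k).2.1

theorem arr_integral (hI : D.Integral) (hC : D.Cyclotomic σ) : D.arr.Integral := by
  intro e
  obtain ⟨ζ, N, hN, hζ, ht⟩ := hC e
  refine ⟨monic_C_add (Q_monic hI e) (Q_pos hI e) _, ?_, ?_⟩
  · show 0 < (Polynomial.C (D.t e) + D.Q e).natDegree
    rw [natDegree_C_add']
    exact Q_pos hI e
  · exact int_add_C (int_prod _ fun k => (hI e k).2.2) (isIntegral_of_zeta σ hN hζ ht)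

theorem fx_eq (p : Polynomial K) : D.fx p = p.eval₂ (D.mkC.comp MvPolynomial.C)
    (D.mkC (MvPolynomial.X (Sum.inl 0))) := by
  show D.mkC (Polynomial.aeval (MvPolynomial.X (Sum.inl 0)) p) = _
  rw [Polynomial.aeval_def, Polynomial.hom_eval₂]
  rfl

theorem phi_eq (e : Fin m) : D.mkC (D.arr.phi e) = D.fx (D.F e) := by
  unfold HC.Arr.phi Dat.fx
  have h1 : (∑ i : Fin 1, MvPolynomial.C (D.arr.l e i) * MvPolynomial.X (Sum.inl i) :
      MvPolynomial (Fin 1 ⊕ Fin m) K) = MvPolynomial.X (Sum.inl 0) := by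
    rw [Fin.sum_univ_one]
    show MvPolynomial.C (1 : K) * MvPolynomial.X (Sum.inl 0) = _
    rw [map_one, one_mul]
  rw [h1]
  rfl

theorem uz_eq (e : Fin m) :
    D.arr.co (Sum.inr e) * (D.fx (D.F e) - D.arr.co (Sum.inr e)) = 1 := by
  rw [← phi_eq]
  exact D.arr.eqn_zero e

/-- The symbols are unramified. -/
theorem unramified.{u, v} {K : Type u} [Field K] {m : ℕ} {D : Dat K m} {σ : K →+* ℂ}
    (hI : D.Integral) (hC : D.Cyclotomic σ) : Dat.UnramifiedSymbols.{u, v} D := by
  intro L _ f
  refine ⟨fun e e' he => ?_, fun e k => ?_⟩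
  · -- the symbols `{z_e, z_f}`
    have hcirc : D.arr.Circuit (n := 1) ![e, e'] := by
      refine ⟨?_, ![1, -1], 2, two_ne_zero, fun i => ?_, fun k => ?_⟩
      · intro i j hij
        fin_cases i <;> fin_cases j
        · rfl
        · exact absurd hij he
        · exact absurd hij.symm he
        · rfl
      · fin_cases i <;> simp
      · rw [Fin.sum_univ_two]
        show (1 : K) * 1 + (-1) * 1 = 0
        ring
    have h := HC.sym_mem_unramified (f.comp D.toO) (arr_integral hI hC) hcirc
    have e1 : KQ.map 2 f (D.zz e e') = KQ.map (1 + 1) (f.comp D.toO) (D.arr.sym ![e, e']) := by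
      unfold Dat.zz HC.Arr.sym
      rw [KQ.map_symb, KQ.map_symb]
      congr 1
      funext i
      fin_cases i
      · rfl
      · rfl
    rw [e1]
    exact h
  · unfold Dat.zp
    rw [KQ.map_symb]
    unfold Unramified
    simp only [Submodule.mem_iInf]
    intro v _
    obtain ⟨ζ, N, hN, hζ, ht⟩ := hC e
    set g : D.CRing →+* L := f.comp D.toO with hg
    set c : K →+* L := g.comp (D.mkC.comp MvPolynomial.C) with hc
    set x : L := g (D.mkC (MvPolynomial.X (Sum.inl 0))) with hx
    set z : Lˣ := Units.map (f : D.Open →* L) (D.uz e) with hz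
    set p : Fin (D.r e + 1) → Lˣ := fun j => Units.map (f : D.Open →* L) (D.up e j) with hp
    have hpv : ∀ j, (p j : L) = (D.P e j).eval₂ c x := by
      intro j
      have h1 : (p j : L) = g (D.fx (D.P e j)) := rfl
      rw [h1, fx_eq, Polynomial.hom_eval₂]
    have hzv : (z : L) = g (D.arr.co (Sum.inr e)) := rfl
    have hF : g (D.fx (D.F e)) = c (D.t e) + ∏ j, (p j : L) := by
      rw [fx_eq, Polynomial.hom_eval₂]
      unfold Dat.F Dat.Q
      rw [Polynomial.eval₂_add, Polynomial.eval₂_C, Polynomial.eval₂_finsetProd]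
      congr 1
      exact Finset.prod_congr rfl fun j _ => (hpv j).symm
    have hzz : (z : L) + (z : L)⁻¹ = c (D.t e) + ∏ j, (p j : L) := by
      have h1 := congrArg g (uz_eq (D := D) e)
      rw [map_mul, map_sub, map_one, ← hzv, hF] at h1
      rw [inv_eq_of_mul_eq_one_right h1]
      ring
    have h := symb_mem v σ c (P := D.P e) (x := x) (fun j => (hI e j).1)
      (fun j => (hI e j).2.1) (fun j => (hI e j).2.2) hN hζ ht z p hpv hzz k.succ 0
    have e1 : (fun i => Units.map (f : D.Open →* L)
        ((![D.uz e, D.up e k.succ / D.up e 0] : Fin 2 → D.Openˣ) i)) =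
        ![z, p k.succ / p 0] := by
      funext i
      fin_cases i
      · rfl
      · show Units.map (f : D.Open →* L) (D.up e k.succ / D.up e 0) = p k.succ / p 0
        rw [map_div]
    rw [e1]
    exact h

end dat

end Pool.Agent.Y797.FP
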